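import Pool.Agent.Lib.BcrK.KUp
import Pool.Agent.Lib.BcrU.NVal

/-!
MODULE KVal. The credit density at a terminal `a` (all sets containing `a` have `e = 0`). Adapted from `BcrU/NVal.lean`.

(1) For `j < m`: `PP lev K ε (th m j) (nest m e j) = {p ∈ nodes : a ∈ p.2}`. If `a ∈ B`: `nest = 0 < th m j ε (k+1)` (`nest_zero`,
    `th_pos`). If `B ∈ cls lev k`, `a ∉ B`: `Fam.pair` for the indices `0, j` (`0 + j + 1 ≤ m`) and the sets `{a}`, `B`
    gives `ε (k+1) ≤ e 0 {a} + e j B = e j B ≤ nest m e j B` (`nest_ge`), which is `> th m j ε (k+1)` excluded (`th_lt_one`).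
(2), (3) as in `BcrU/NVal.lean` (`NVal_age`, `NVal_nu`, `dens_term`), with `KUp.PP_up` and `nest_mono`.
-/

namespace BcrK

open Finset Bcr3 BcrU

variable {ι : Type} [Fintype ι] [DecidableEq ι] {lev : ι → ι → ℕ} {K : ℕ}

private theorem KVal_eq (hU : Ult K lev) {i : ι} {p : ℕ × Finset ι} (hp : p ∈ nodes lev K)
    (hi : i ∈ p.2) : p = (p.1, cl lev p.1 i) :=
  Prod.ext rfl (cls_eq_cl hU (mem_nodes.1 hp).2 hi)

private theorem KVal_PP {ε : ℝ} {m j : ℕ} {e : ℕ → Finset ι → ℝ} (hU : Ult K lev) (hε : 0 < ε)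
    (hj : j < m) (he : Fam lev ε m e) {a : ι}
    (hz : ∀ i < m, ∀ B : Finset ι, a ∈ B → e i B = 0) {p : ℕ × Finset ι} :
    p ∈ PP lev K ε (th m j) (nest m e j) ↔ p ∈ nodes lev K ∧ a ∈ p.2 := by
  have hx : (0 : ℝ) < ε * ((p.1 : ℝ) + 1) := by positivity
  unfold PP
  rw [Finset.mem_filter]
  constructor
  · rintro ⟨h1, h2⟩
    refine ⟨h1, ?_⟩
    by_contra hi
    obtain ⟨h3, h4⟩ := mem_nodes.1 h1
    have h5 : ε * ((p.1 : ℝ) + 1) ≤ e 0 {a} + e j p.2 := by
      refine he.pair 0 j (by omega) hj (by omega) p.1 {a} p.2 (Finset.singleton_nonempty a)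
        (cls_nonempty hU h4) ?_ ?_ ?_
      · intro x hx y hy
        rw [Finset.mem_singleton] at hx hy
        rw [hx, hy, hU.refl]
        exact Nat.zero_le _
      · intro x hx y hy
        exact (cls_lev_le hU h4 hx hy).trans (Nat.le_succ _)
      · intro x hx y hy
        rw [Finset.mem_singleton] at hx
        rw [hx]
        by_contra hlt
        have h6 : p.2 = cl lev p.1 y := cls_eq_cl hU h4 hy
        have h7 : cl lev p.1 a = cl lev p.1 y := (cl_eq_iff hU).2 (not_lt.1 hlt)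
        exact hi (by rw [h6, ← h7]; exact mem_cl_self hU _ _)
    rw [hz 0 (by omega) {a} (Finset.mem_singleton_self a), zero_add] at h5
    have h8 : th m j * (ε * ((p.1 : ℝ) + 1)) < 1 * (ε * ((p.1 : ℝ) + 1)) :=
      mul_lt_mul_of_pos_right (th_lt_one m j) hx
    have h9 := nest_ge e hj p.2
    linarith
  · rintro ⟨h1, h2⟩
    refine ⟨h1, ?_⟩
    rw [nest_zero hj fun i hi => hz i hi _ h2]
    exact mul_pos (th_pos hj) hx

private theorem KVal_up {ε : ℝ} {m j : ℕ} {e : ℕ → Finset ι → ℝ} (hU : Ult K lev) (hε : 0 < ε)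
    (hj : j < m) (he : Fam lev ε m e) :
    Up (par lev) Prod.fst K (PP lev K ε (th m j) (nest m e j)) :=
  PP_up hU hε (th_pos hj) fun B C hB hBC => nest_mono hj fun i hi => he.mono i hi B C hB hBC

private theorem KVal_age {ε : ℝ} {m j : ℕ} {e : ℕ → Finset ι → ℝ} (hU : Ult K lev) (hε : 0 < ε)
    (hj : j < m) (he : Fam lev ε m e) {a : ι}
    (hz : ∀ i < m, ∀ B : Finset ι, a ∈ B → e i B = 0) {p : ℕ × Finset ι} (hp : p ∈ nodes lev K)
    (hi : a ∈ p.2) :
    age (par lev) Prod.fst (PP lev K ε (th m j) (nest m e j)) p = p.1 := by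
  have hmem : p ∈ PP lev K ε (th m j) (nest m e j) := (KVal_PP hU hε hj he hz).2 ⟨hp, hi⟩
  have hK : p.1 < K := (mem_nodes.1 hp).1
  have hup := KVal_up hU hε hj he
  apply le_antisymm
  · unfold age
    exact Nat.findGreatest_le _
  · rw [← mem_trim_iff (par_fst (lev := lev)) hup hmem]
    have h0 : (cl lev 0 a) ∈ cls lev 0 := Finset.mem_image.2 ⟨a, Finset.mem_univ a, rfl⟩
    have h1 : ((0, cl lev 0 a) : ℕ × Finset ι) ∈ nodes lev K := mem_nodes.2 ⟨by
      show 0 < K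
      omega, h0⟩
    have h2 : ((0, cl lev 0 a) : ℕ × Finset ι) ∈ PP lev K ε (th m j) (nest m e j) :=
      (KVal_PP hU hε hj he hz).2 ⟨h1, mem_cl_self hU 0 a⟩
    obtain ⟨h3, h4, h5⟩ := iter_par hU p.1 (x := ((0, cl lev 0 a) : ℕ × Finset ι)) h0
    have h6 : a ∈ ((par lev)^[p.1] ((0, cl lev 0 a) : ℕ × Finset ι)).2 := h5 (mem_cl_self hU 0 a)
    have h7 : ((par lev)^[p.1] ((0, cl lev 0 a) : ℕ × Finset ι)) = p := by
      have e1 : ((par lev)^[p.1] ((0, cl lev 0 a) : ℕ × Finset ι)).1 = p.1 := by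
        rw [h3]
        exact Nat.zero_add _
      have e2 : ((par lev)^[p.1] ((0, cl lev 0 a) : ℕ × Finset ι)).2 = cl lev (0 + p.1) a :=
        cls_eq_cl hU h4 h6
      rw [Nat.zero_add] at e2
      have e3 : p.2 = cl lev p.1 a := cls_eq_cl hU (mem_nodes.1 hp).2 hi
      exact Prod.ext e1 (e2.trans e3.symm)
    unfold trim
    rw [Finset.mem_filter]
    exact ⟨hmem, _, h2, h7⟩

private theorem KVal_nu {ε : ℝ} {m j : ℕ} {e : ℕ → Finset ι → ℝ} (hU : Ult K lev) (hε : 0 < ε)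
    (hj : j < m) (he : Fam lev ε m e) {a : ι}
    (hz : ∀ i < m, ∀ B : Finset ι, a ∈ B → e i B = 0) {p : ℕ × Finset ι}
    (hp : p ∈ nodes lev K) :
    nu (par lev) Prod.fst (PP lev K ε (th m j) (nest m e j)) p = if a ∈ p.2 then 1 else 0 := by
  unfold nu
  by_cases hi : a ∈ p.2
  · have hmem : p ∈ PP lev K ε (th m j) (nest m e j) := (KVal_PP hU hε hj he hz).2 ⟨hp, hi⟩
    rw [if_pos hmem, if_pos hi]
    have hc : cnt (par lev) Prod.fst (PP lev K ε (th m j) (nest m e j))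
        (age (par lev) Prod.fst (PP lev K ε (th m j) (nest m e j)) p) = 1 := by
      unfold cnt
      rw [Finset.card_eq_one]
      refine ⟨p, ?_⟩
      ext r
      rw [Finset.mem_filter, Finset.mem_singleton]
      constructor
      · rintro ⟨h1, h2⟩
        obtain ⟨h3, h4⟩ := (KVal_PP hU hε hj he hz).1 h1
        rw [KVal_age hU hε hj he hz h3 h4, KVal_age hU hε hj he hz hp hi] at h2
        rw [KVal_eq hU h3 h4, KVal_eq hU hp hi, h2]
      · rintro rfl
        exact ⟨hmem, rfl⟩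
    rw [hc]
    unfold g
    norm_num
  · have hmem : p ∉ PP lev K ε (th m j) (nest m e j) :=
      fun h => hi ((KVal_PP hU hε hj he hz).1 h).2
    rw [if_neg hmem, if_neg hi]

theorem dens_term {ε : ℝ} {m q : ℕ} {e : ℕ → Finset ι → ℝ} (hU : Ult K lev)
    (hε : 0 < ε) (hm : 0 < m) (hq : q ≤ m) (he : Fam lev ε m e) {a : ι}
    (hz : ∀ i < m, ∀ B : Finset ι, a ∈ B → e i B = 0) {p : ℕ × Finset ι} (hp : p ∈ nodes lev K) :
    dens lev K ε m q e p = if a ∈ p.2 then beta m q (th m) else 0 := by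
  have hF : (0 : ℝ) < (m : ℝ) + 2 * q := by positivity
  unfold dens
  have h1 : ∑ j ∈ range q, th m j *
        nu (par lev) Prod.fst (PP lev K ε (th m j) (nest m e j)) p =
      ∑ j ∈ range q, th m j * (if a ∈ p.2 then 1 else 0) := by
    refine Finset.sum_congr rfl fun j hj => ?_
    have hj' : j < m := lt_of_lt_of_le (Finset.mem_range.1 hj) hq
    rw [KVal_nu hU hε hj' he hz hp]
  have h2 : ∑ j ∈ Ico q m, th m j * (if p ∈ PP lev K ε (th m j) (nest m e j) then 1 else 0) =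
      ∑ j ∈ Ico q m, th m j * (if a ∈ p.2 then 1 else 0) := by
    refine Finset.sum_congr rfl fun j hj => ?_
    have hj' : j < m := (Finset.mem_Ico.1 hj).2
    by_cases hi : a ∈ p.2
    · rw [if_pos hi, if_pos ((KVal_PP hU hε hj' he hz).2 ⟨hp, hi⟩)]
    · rw [if_neg hi, if_neg fun h => hi ((KVal_PP hU hε hj' he hz).1 h).2]
  rw [h1, h2]
  by_cases hi : a ∈ p.2
  · simp only [if_pos hi, mul_one]
    unfold beta
    rw [← Finset.sum_range_add_sum_Ico (th m) hq]
    field_simp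
    ring
  · simp only [if_neg hi, mul_zero, Finset.sum_const_zero, add_zero]

end BcrK
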