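import Pool.Agent.Lib.BcrK.KDefs

/-!
MODULE KNum (100 lines). Values of the designs.

* `beta_th`: `∑ j ∈ range n, th m j = n - n (n+1) / (2 (m+1))` (induction on `n`), for `n = m` this is `m / 2`.
* `beta_pos`: `∑ th m j > 0` (`th m j > 0` for `j < m`).
* `num50`: `β k = beta (k-1) (3 k / 8) (th (k-1))` (natural division, `1 ≤ 3 k / 8 ≤ k - 1` for `k ≥ 3`); the sum is
  `1 + ∑ k ∈ Ico 3 50, 1/(β k k (k-1)) + 1/(49 β 50) = 1.8300954...`. Write `β k` with `beta_th` as a rational number, then `norm_num`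
  or `decide +kernel` on rational numbers (for example prove `(∑ k ∈ Finset.Ico 3 50, f k : ℚ) ≤ ..` by `decide +kernel` or
  `norm_num [Finset.sum_Ico_succ_top]` and cast).
-/

namespace BcrK

open Finset Bcr3 BcrU

private theorem KNum_sum (m n : ℕ) :
    ∑ j ∈ range n, th m j = (n : ℝ) - n * (n + 1) / (2 * (m + 1)) := by
  have hm : ((m : ℝ) + 1) ≠ 0 := by positivity
  induction n with
  | zero => simp
  | succ n ih =>
    rw [sum_range_succ, ih]
    unfold th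
    push_cast
    field_simp
    ring

theorem beta_th {m q : ℕ} (hm : 0 < m) (hq : q ≤ m) :
    beta m q (th m) = ((m : ℝ) / 2 + 2 * q - q * (q + 1) / (m + 1)) / (m + 2 * q) := by
  have h1 : ((m : ℝ) + 1) ≠ 0 := by positivity
  unfold beta
  rw [KNum_sum, KNum_sum]
  congr 1
  field_simp
  ring

theorem beta_pos {m q : ℕ} (hm : 0 < m) (hq : q ≤ m) : 0 < beta m q (th m) := by
  rw [beta_th hm hq]
  have h1 : (0 : ℝ) < m := by exact_mod_cast hm
  have h2 : (q : ℝ) ≤ m := by exact_mod_cast hq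
  have h0 : (0 : ℝ) ≤ q := Nat.cast_nonneg q
  apply div_pos _ (by positivity)
  have h3 : (q : ℝ) * (q + 1) / (m + 1) ≤ q := by
    rw [div_le_iff₀ (by positivity)]
    nlinarith
  linarith

/-- the terms of the sum, as rational numbers -/
def KNum_g (k : ℕ) : ℚ :=
  1 / ((((k - 1 : ℕ) : ℚ) / 2 + 2 * ((3 * k / 8 : ℕ) : ℚ) -
    ((3 * k / 8 : ℕ) : ℚ) * (((3 * k / 8 : ℕ) : ℚ) + 1) / (((k - 1 : ℕ) : ℚ) + 1)) /
      (((k - 1 : ℕ) : ℚ) + 2 * ((3 * k / 8 : ℕ) : ℚ))) / ((k : ℚ) * ((k : ℚ) - 1))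

/-- the value at 50 -/
def KNum_b : ℚ := ((49 : ℚ) / 2 + 2 * 18 - 18 * (18 + 1) / (49 + 1)) / (49 + 2 * 18)

private theorem KNum_q : 1 + (∑ k ∈ Ico 3 50, KNum_g k) + 1 / KNum_b / 49 ≤ 18301 / 10000 := by
  decide +kernel

theorem num50 : 1 + (∑ k ∈ Ico 3 50, 1 / beta (k - 1) (3 * k / 8) (th (k - 1)) /
      ((k : ℝ) * ((k : ℝ) - 1))) + 1 / beta 49 18 (th 49) / 49 ≤ 1.8301 := by
  have h1 : ∀ k ∈ Ico 3 50, 1 / beta (k - 1) (3 * k / 8) (th (k - 1)) /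
      ((k : ℝ) * ((k : ℝ) - 1)) = ((KNum_g k : ℚ) : ℝ) := by
    intro k hk
    rw [mem_Ico] at hk
    rw [beta_th (by omega) (by omega)]
    unfold KNum_g
    push_cast
    rfl
  have h2 : beta 49 18 (th 49) = ((KNum_b : ℚ) : ℝ) := by
    rw [beta_th (by norm_num) (by norm_num)]
    unfold KNum_b
    push_cast
    rfl
  rw [sum_congr rfl h1, h2]
  have h3 : ((1 + (∑ k ∈ Ico 3 50, KNum_g k) + 1 / KNum_b / 49 : ℚ) : ℝ) ≤
      ((18301 / 10000 : ℚ) : ℝ) := by exact_mod_cast KNum_q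
  push_cast at h3
  norm_num at h3 ⊢
  exact h3

end BcrK
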