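import Pool.Agent.Lib.BcrK.KTight
import Pool.Agent.Lib.BcrK.KCore
import Pool.Agent.Lib.BcrK.KNum
import Pool.Agent.Lib.BcrU.GShift

/-!
MODULE KTight2 (140 lines). The bound for levels which are tight for all components with at most `m + 1` terminals.

`lev' i j = lev i j - 1` is `Ult K` (`shift_ult` with `n = 1`) and `mu lev' S ≤ ec c Y` for all `S` nonempty, `S.card ≤ m + 1`, `Y` connecting
`S` (`shift_stab` with `n = 1`, `ec c Y ≥ 0`). `mu lev univ - ε * card ι ≤ mu lev' univ` (`shift_univ` with `n = 1`).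
Let `e v = eK G c t lev' K ε v` if `G.Reachable r v` and `e v = eK G c t lev' K ε r` otherwise. All `e v` are `Fam` (`eK_fam`); for adjacent
`u, v` both are reachable (`eK_lip`) or none is (difference `0 ≤ c`); `e (t a) i B = 0` for `a ∈ B`, `i < m` (`eK_zero`, `t a` is
reachable). Apply `core` to `lev'`, and `beta m q (th m) ≥ 0` (`beta_nonneg`, KNum).
-/

namespace BcrK

open Finset Bcr3 BcrU

variable {V : Type} [Fintype V] [DecidableEq V] {G : SimpleGraph V} {c : Sym2 V → ℝ}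

theorem tight_bound (hc : ∀ e, 0 ≤ c e) {R : Finset V} {r : V} {x : V → V → ℝ}
    (hx : Feasible G R r x) {ι : Type} [Fintype ι] [DecidableEq ι] {t : ι → V}
    (htR : ∀ i, t i ∈ R) (ht : ∀ i, G.Reachable r (t i)) {i0 : ι} (hi0 : t i0 = r) {K : ℕ}
    {ε : ℝ} (hε : 0 < ε) {m q : ℕ} (hm : 0 < m) (hq : q ≤ m) {lev : ι → ι → ℕ} (hU : Ult K lev)
    (hT : ∀ S : Finset ι, S.Nonempty → S.card ≤ m + 1 → ∀ Y : Finset (Sym2 V),
      (∀ i ∈ S, ∀ j ∈ S, conn G Y (t i) (t j)) → mu lev K ε S ≤ ec c Y + ε)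
    {δ : ℝ} (hδ : 0 < δ) (hcm : ∀ a, c a = 0 ∨ δ ≤ c a) :
    beta m q (th m) * (mu lev K ε univ - ε * (Fintype.card ι : ℝ)) ≤
      (1 + 2 * ε / δ) * ∑ u, ∑ v, c s(u, v) * x u v := by
  classical
  have : Nonempty ι := ⟨i0⟩
  have hU' : Ult K (fun i j => lev i j - 1) := shift_ult hU 1
  have hT' : ∀ S : Finset ι, S.Nonempty → S.card ≤ m + 1 → ∀ Y : Finset (Sym2 V),
      (∀ i ∈ S, ∀ j ∈ S, conn G Y (t i) (t j)) →
        mu (fun i j => lev i j - 1) K ε S ≤ ec c Y := by
    intro S hS hS' Y hY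
    refine shift_stab hU hε.le 1 hS (Finset.sum_nonneg fun e _ => hc e) ?_
    rw [Nat.cast_one, mul_one]
    exact hT S hS hS' Y hY
  have hsh : mu lev K ε univ - ε * (Fintype.card ι : ℝ) ≤
      mu (fun i j => lev i j - 1) K ε univ := by
    have h := shift_univ hU hε.le 1
    rw [Nat.cast_one, mul_one] at h
    exact h
  have hreach : ∀ v, G.Reachable r v → ∀ i, G.Reachable v (t i) :=
    fun v hv i => hv.symm.trans (ht i)
  obtain ⟨e, he⟩ : ∃ e : V → ℕ → Finset ι → ℝ, ∀ v, e v =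
      if G.Reachable r v then eK G c t (fun i j => lev i j - 1) K ε v
      else eK G c t (fun i j => lev i j - 1) K ε r := ⟨_, fun _ => rfl⟩
  have hA : ∀ v, Fam (fun i j => lev i j - 1) ε m (e v) := by
    intro v
    rw [he v]
    split_ifs with h
    · exact eK_fam hc hU' hε.le (hreach v h) hT'
    · exact eK_fam hc hU' hε.le ht hT'
  have hL : ∀ u v, G.Adj u v → ∀ i < m, ∀ B : Finset ι, B.Nonempty →
      |e u i B - e v i B| ≤ c s(u, v) := by
    intro u v huv i _ B hB
    rw [he u, he v]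
    by_cases h : G.Reachable r v
    · have hu : G.Reachable r u := h.trans huv.symm.reachable
      rw [if_pos hu, if_pos h]
      exact eK_lip hc (hreach v h) huv i hB
    · have hu : ¬ G.Reachable r u := fun hu => h (hu.trans huv.reachable)
      rw [if_neg hu, if_neg h, sub_self, abs_zero]
      exact hc _
  have hz : ∀ a, ∀ i < m, ∀ B : Finset ι, a ∈ B → e (t a) i B = 0 := by
    intro a i hi B ha
    rw [he (t a), if_pos (ht a)]
    exact eK_zero hc hU' hε.le (hreach _ (ht a)) hT' hi ha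
  have hcore := core hc hx htR hi0 hU' hε hm hq hA hL hz hδ hcm
  exact le_trans (mul_le_mul_of_nonneg_left hsh (beta_pos hm hq).le) hcore

end BcrK
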