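import Pool.Agent.Lib.BcrK.KJ

/-!
MODULE KCount (120 lines). The counting lemma. Adapt `BcrU/LCount.lean` (there `J θ m (e B) τ` is the number of `j < m` with
`e B < θ j * τ`; here `JJ m e B τ` is the number of `j < m` with `nest m e j B < th m j * τ`).

`X n = ∑ B ∈ cls lev n, JJ m e B (ε * n)`, `Y n = ∑ B ∈ cls lev n, JJ m e B (ε * (n + 1))`.
(1) `#{j < m : th j (ε k) ≤ nest j B, nest j B < th j (ε (k+1))} + JJ m e B (ε k) = JJ m e B (ε (k+1))`
    (`{nest j B < th j (ε k)} ⊆ {nest j B < th j (ε (k+1))}` since `th m j > 0`).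
(2) `Y k ≤ X (k+1)` by `JJ_biUnion`, `cls_succ_union`.
(3) Induction: `∑ k ∈ range n, (inner sum) ≤ X n`. (4) `X K ≤ m` by `cls_top`, `JJ_le`.
-/

namespace BcrK

open Finset Bcr3 BcrU

variable {ι : Type} [Fintype ι] [DecidableEq ι] {lev : ι → ι → ℕ} {K : ℕ}

private theorem kc_th_pos {m j : ℕ} (hj : j < m) : 0 < th m j := by
  unfold th
  have h1 : (0 : ℝ) < (m : ℝ) + 1 := by positivity
  have h2 : ((j : ℝ) + 1) / ((m : ℝ) + 1) < 1 := by
    rw [div_lt_one h1]
    have : (j : ℝ) < m := by exact_mod_cast hj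
    linarith
  linarith

private theorem kc_one {ε : ℝ} {m : ℕ} {e : ℕ → Finset ι → ℝ} (B : Finset ι) (hε : 0 < ε)
    (k : ℕ) :
    ((range m).filter fun j => th m j * (ε * (k : ℝ)) ≤ nest m e j B ∧
      nest m e j B < th m j * (ε * ((k : ℝ) + 1))).card +
      JJ m e B (ε * (k : ℝ)) = JJ m e B (ε * ((k : ℝ) + 1)) := by
  unfold JJ
  have h1 : (range m).filter (fun j => nest m e j B < th m j * (ε * (k : ℝ))) =
      ((range m).filter fun j => nest m e j B < th m j * (ε * ((k : ℝ) + 1))).filter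
        (fun j => nest m e j B < th m j * (ε * (k : ℝ))) := by
    ext j
    simp only [mem_filter, mem_range]
    constructor
    · rintro ⟨hj, hx⟩
      refine ⟨⟨hj, hx.trans ?_⟩, hx⟩
      have := kc_th_pos hj
      have h2 : ε * (k : ℝ) < ε * ((k : ℝ) + 1) := by nlinarith
      exact mul_lt_mul_of_pos_left h2 this
    · rintro ⟨⟨hj, _⟩, hx⟩
      exact ⟨hj, hx⟩
  have h2 : (range m).filter (fun j => th m j * (ε * (k : ℝ)) ≤ nest m e j B ∧
      nest m e j B < th m j * (ε * ((k : ℝ) + 1))) =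
      ((range m).filter fun j => nest m e j B < th m j * (ε * ((k : ℝ) + 1))).filter
        (fun j => ¬ nest m e j B < th m j * (ε * (k : ℝ))) := by
    ext j
    simp only [mem_filter, mem_range, not_lt]
    tauto
  rw [h1, h2, add_comm]
  exact Finset.card_filter_add_card_filter_not _

private theorem kc_two {ε : ℝ} {m : ℕ} {e : ℕ → Finset ι → ℝ}
    (hU : Ult K lev) (hε : 0 < ε) (he : Fam lev ε m e) (k : ℕ) :
    ∑ B ∈ cls lev k, JJ m e B (ε * ((k : ℝ) + 1)) ≤
      ∑ C ∈ cls lev (k + 1), JJ m e C (ε * ((k : ℝ) + 1)) := by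
  have h1 : ∀ C ∈ cls lev (k + 1), ∑ B ∈ (cls lev k).filter (fun B => B ⊆ C),
      JJ m e B (ε * ((k : ℝ) + 1)) ≤ JJ m e C (ε * ((k : ℝ) + 1)) := by
    intro C hC
    have hu := cls_succ_union hU hC
    have hne : ((cls lev k).filter (fun B => B ⊆ C)).Nonempty := by
      rw [nonempty_iff_ne_empty]
      intro h0
      rw [h0, biUnion_empty] at hu
      have := cls_nonempty hU hC
      rw [← hu] at this
      exact absurd this (by simp)
    have h2 := JJ_biUnion hU hε he k (filter_subset (fun B => B ⊆ C) (cls lev k)) hne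
      (by
        rw [hu]
        intro i hi j hj
        exact cls_lev_le hU hC hi hj)
    rw [hu] at h2
    exact h2
  refine le_trans ?_ (Finset.sum_le_sum h1)
  simp only [sum_filter]
  rw [sum_comm]
  refine Finset.sum_le_sum fun B hB => ?_
  obtain ⟨i, hi⟩ := cls_nonempty hU hB
  have hBi := cls_eq_cl hU hB hi
  have hC : cl lev (k + 1) i ∈ cls lev (k + 1) := mem_image_of_mem _ (mem_univ i)
  have hsub : B ⊆ cl lev (k + 1) i := by
    rw [hBi]
    exact cl_mono (Nat.le_succ k) i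
  have h3 := Finset.single_le_sum (f := fun C : Finset ι =>
    if B ⊆ C then JJ m e B (ε * ((k : ℝ) + 1)) else 0) (fun C _ => Nat.zero_le _) hC
  simp only [if_pos hsub] at h3
  exact h3

theorem count_le [Nonempty ι] {ε : ℝ} {m : ℕ} {e : ℕ → Finset ι → ℝ}
    (hU : Ult K lev) (hε : 0 < ε) (he : Fam lev ε m e) :
    ∑ k ∈ range K, ∑ B ∈ cls lev k,
      ((range m).filter fun j => th m j * (ε * (k : ℝ)) ≤ nest m e j B ∧
        nest m e j B < th m j * (ε * ((k : ℝ) + 1))).card ≤ m := by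
  have h3 : ∀ n : ℕ, ∑ k ∈ range n, ∑ B ∈ cls lev k,
      ((range m).filter fun j => th m j * (ε * (k : ℝ)) ≤ nest m e j B ∧
        nest m e j B < th m j * (ε * ((k : ℝ) + 1))).card ≤
        ∑ B ∈ cls lev n, JJ m e B (ε * (n : ℝ)) := by
    intro n
    induction n with
    | zero => simp
    | succ n ih =>
      rw [sum_range_succ]
      have h4 : ∑ B ∈ cls lev n, ((range m).filter fun j =>
          th m j * (ε * (n : ℝ)) ≤ nest m e j B ∧
          nest m e j B < th m j * (ε * ((n : ℝ) + 1))).card +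
          ∑ B ∈ cls lev n, JJ m e B (ε * (n : ℝ)) =
          ∑ B ∈ cls lev n, JJ m e B (ε * ((n : ℝ) + 1)) := by
        rw [← sum_add_distrib]
        exact sum_congr rfl fun B _ => kc_one B hε n
      have h5 := kc_two hU hε he n
      have h6 : ((n + 1 : ℕ) : ℝ) = (n : ℝ) + 1 := by push_cast; ring
      rw [h6]
      omega
  have h7 := h3 K
  rw [cls_top hU, sum_singleton] at h7
  exact h7.trans (JJ_le _ _ _ _)

end BcrK
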