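import Pool.Agent.Lib.BcrU.DefsG

/-!
Components with a bounded number of terminals: definitions.
-/

namespace BcrK

open Finset Bcr3 BcrU

/-- thresholds -/
noncomputable def th (m : ℕ) (j : ℕ) : ℝ := 1 - ((j : ℝ) + 1) / ((m : ℝ) + 1)

section Levels

variable {ι : Type} [Fintype ι] [DecidableEq ι]

/-- admissible families: `e i B` is the information on `B` from at most `i + 1` terminals, `i < m` -/
structure Fam (lev : ι → ι → ℕ) (ε : ℝ) (m : ℕ) (e : ℕ → Finset ι → ℝ) : Prop where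
  nn : ∀ i < m, ∀ B : Finset ι, B.Nonempty → 0 ≤ e i B
  mono : ∀ i < m, ∀ B C : Finset ι, B.Nonempty → B ⊆ C → e i C ≤ e i B
  pair : ∀ i j : ℕ, i < m → j < m → i + j + 1 ≤ m → ∀ (k : ℕ) (B C : Finset ι), B.Nonempty →
    C.Nonempty → (∀ a ∈ B, ∀ b ∈ B, lev a b ≤ k + 1) → (∀ a ∈ C, ∀ b ∈ C, lev a b ≤ k + 1) →
    (∀ a ∈ B, ∀ b ∈ C, k < lev a b) → ε * ((k : ℝ) + 1) ≤ e i B + e j C
  hub : ∀ i j : ℕ, i + j + 1 < m → ∀ (k : ℕ) (B C : Finset ι), B.Nonempty →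
    C.Nonempty → (∀ a ∈ B, ∀ b ∈ B, lev a b ≤ k + 1) → (∀ a ∈ C, ∀ b ∈ C, lev a b ≤ k + 1) →
    (∀ a ∈ B, ∀ b ∈ C, k < lev a b) →
    e (i + j + 1) (B ∪ C) ≤ e i B + e j C - ε * ((k : ℝ) + 1)

/-- the nested vectors -/
noncomputable def nest (m : ℕ) (e : ℕ → Finset ι → ℝ) (j : ℕ) (B : Finset ι) : ℝ :=
  th m j * (range (j + 1)).sup' nonempty_range_add_one (fun i => e i B / th m i)

/-- number of thresholds passed -/
noncomputable def JJ (m : ℕ) (e : ℕ → Finset ι → ℝ) (B : Finset ι) (τ : ℝ) : ℕ :=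
  ((range m).filter fun j => nest m e j B < th m j * τ).card

/-- credit density of a node -/
noncomputable def dens (lev : ι → ι → ℕ) (K : ℕ) (ε : ℝ) (m q : ℕ)
    (e : ℕ → Finset ι → ℝ) (p : ℕ × Finset ι) : ℝ :=
  3 / ((m : ℝ) + 2 * q) * ∑ j ∈ range q,
    th m j * nu (par lev) Prod.fst (PP lev K ε (th m j) (nest m e j)) p +
  1 / ((m : ℝ) + 2 * q) * ∑ j ∈ Ico q m,
    th m j * (if p ∈ PP lev K ε (th m j) (nest m e j) then 1 else 0)

end Levels

section Graph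

variable {V : Type}

/-- cost of connecting `v` to the terminals of `S` -/
noncomputable def TT {ι : Type} (G : SimpleGraph V) (c : Sym2 V → ℝ) (t : ι → V)
    (S : Finset ι) (v : V) : ℝ :=
  sInf {x | ∃ Y : Finset (Sym2 V), (∀ i ∈ S, conn G Y v (t i)) ∧ x = ec c Y}

/-- the information from at most `i + 1` terminals -/
noncomputable def eK {ι : Type} [Fintype ι] [DecidableEq ι] (G : SimpleGraph V)
    (c : Sym2 V → ℝ) (t : ι → V) (lev : ι → ι → ℕ) (K : ℕ) (ε : ℝ) (v : V) (i : ℕ)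
    (B : Finset ι) : ℝ :=
  sInf {x | ∃ S : Finset ι, S.Nonempty ∧ S ⊆ B ∧ S.card ≤ i + 1 ∧
    x = TT G c t S v - mu lev K ε S}

/-- `S` is connected by `Y` -/
def Con {ι : Type} (G : SimpleGraph V) (t : ι → V) (Y : Finset (Sym2 V)) (S : Finset ι) : Prop :=
  ∀ i ∈ S, ∀ j ∈ S, conn G Y (t i) (t j)

end Graph

end BcrK
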