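import Pool.Agent.Lib.BcrK.KNest
import Pool.Agent.Lib.BcrU.LUlt

/-!
MODULE KJ (150 lines). Superadditivity of the number of passed thresholds. Adapt `BcrU/LJ.lean`.

`JJ m e B τ = #{j < m : nest m e j B < th m j * τ}`; by `nest_lt_iff` the condition for `j` is `∀ i ≤ j, e i B < th m i * τ`, so the
set is an initial segment of `range m`:
`JJ_lt`: if `j < JJ m e B τ` then `j < m` and `e j B < th m j * τ` (otherwise the set is contained in `range j`);
`JJ_ge`: if `l ≤ m` and `e j B < th m j * τ` for all `j < l` then `l ≤ JJ m e B τ`.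

`JJ_superadd`. `τ = ε (k+1) > 0`, `a = JJ B`, `b = JJ C`. If `b = 0`: `JJ (B ∪ C) ≥ JJ B` by `mono` (for `j < a`:
`e j (B ∪ C) ≤ e j B < th j τ`); same if `a = 0`. Let `a, b ≥ 1`.
* If `a + b ≤ m`: for `l < a + b`: if `l < a` by `mono`; else `l = (a-1) + (l-a) + 1` with `l - a < b`:
  `e l (B ∪ C) ≤ e (a-1) B + e (l-a) C - τ < (th (a-1) + th (l-a) - 1) τ = th l τ` (`hub`, `th_add`). So `a + b ≤ JJ (B ∪ C)`.
* If `m < a + b`: let `i = a - 1`, `j = m - a`, so `j < b`, `j < m`, `i + j + 1 = m`: `τ ≤ e i B + e j C < (th i + th j) τ ≤ τ`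
  (`pair`, `th_pair`), a contradiction.

`JJ_biUnion`: as `J_biUnion` in `BcrU/LJ.lean`.
-/

namespace BcrK

open Finset Bcr3 BcrU

variable {ι : Type} [Fintype ι] [DecidableEq ι] {lev : ι → ι → ℕ} {K : ℕ}

theorem JJ_le (m : ℕ) (e : ℕ → Finset ι → ℝ) (B : Finset ι) (τ : ℝ) : JJ m e B τ ≤ m := by
  unfold JJ
  refine (card_filter_le _ _).trans ?_
  rw [card_range]


private theorem KJ_lt {m : ℕ} (e : ℕ → Finset ι → ℝ) (B : Finset ι) (τ : ℝ) {j : ℕ}
    (h : j < JJ m e B τ) : j < m ∧ e j B < th m j * τ := by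
  have hjm : j < m := by
    refine lt_of_lt_of_le h ?_
    unfold JJ
    refine (card_filter_le _ _).trans ?_
    rw [card_range]
  refine ⟨hjm, ?_⟩
  by_contra hx
  have hs : ((range m).filter fun i => nest m e i B < th m i * τ) ⊆ range j := by
    intro i hi
    rw [mem_filter, mem_range] at hi
    rw [mem_range]
    by_contra hij
    rw [not_lt] at hij
    exact hx ((nest_lt_iff e hi.1 B τ).1 hi.2 j hij)
  have h2 := card_le_card hs
  rw [card_range] at h2
  exact absurd h (not_lt.2 h2)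


private theorem KJ_ge {m : ℕ} (e : ℕ → Finset ι → ℝ) (B : Finset ι) (τ : ℝ) {l : ℕ} (hl : l ≤ m)
    (h : ∀ j < l, e j B < th m j * τ) : l ≤ JJ m e B τ := by
  have hs : range l ⊆ ((range m).filter fun i => nest m e i B < th m i * τ) := by
    intro i hi
    rw [mem_range] at hi
    rw [mem_filter, mem_range]
    refine ⟨by omega, ?_⟩
    rw [nest_lt_iff e (by omega) B τ]
    intro a ha
    exact h a (by omega)
  have h2 := card_le_card hs
  rw [card_range] at h2
  exact h2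

theorem JJ_superadd {ε : ℝ} {m : ℕ} {e : ℕ → Finset ι → ℝ} (hε : 0 < ε)
    (he : Fam lev ε m e) (k : ℕ) {B C : Finset ι} (hB : B.Nonempty)
    (hC : C.Nonempty) (lB : ∀ i ∈ B, ∀ j ∈ B, lev i j ≤ k + 1)
    (lC : ∀ i ∈ C, ∀ j ∈ C, lev i j ≤ k + 1) (hBC : ∀ i ∈ B, ∀ j ∈ C, k < lev i j) :
    JJ m e B (ε * ((k : ℝ) + 1)) + JJ m e C (ε * ((k : ℝ) + 1)) ≤
      JJ m e (B ∪ C) (ε * ((k : ℝ) + 1)) := by
  have hk : (0 : ℝ) < (k : ℝ) + 1 := by positivity
  have hτ : 0 < ε * ((k : ℝ) + 1) := mul_pos hε hk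
  have hpb : ∀ j, j < JJ m e B (ε * ((k : ℝ) + 1)) → j < m ∧ e j B < th m j * (ε * ((k : ℝ) + 1)) :=
    fun j h => KJ_lt e B _ h
  have hpc : ∀ j, j < JJ m e C (ε * ((k : ℝ) + 1)) → j < m ∧ e j C < th m j * (ε * ((k : ℝ) + 1)) :=
    fun j h => KJ_lt e C _ h
  have hmb : ∀ i < m, e i (B ∪ C) ≤ e i B := fun i hi =>
    he.mono i hi B (B ∪ C) hB subset_union_left
  have hmc : ∀ i < m, e i (B ∪ C) ≤ e i C := fun i hi =>
    he.mono i hi C (B ∪ C) hC subset_union_right
  have hp := fun i j (hi : i < m) (hj : j < m) (hij : i + j + 1 ≤ m) =>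
    he.pair i j hi hj hij k B C hB hC lB lC hBC
  have hh := fun i j (hij : i + j + 1 < m) => he.hub i j hij k B C hB hC lB lC hBC
  have hbm : JJ m e B (ε * ((k : ℝ) + 1)) ≤ m := JJ_le m e B _
  have hcm : JJ m e C (ε * ((k : ℝ) + 1)) ≤ m := JJ_le m e C _
  generalize hbe : JJ m e B (ε * ((k : ℝ) + 1)) = b at hpb hbm ⊢
  generalize hce : JJ m e C (ε * ((k : ℝ) + 1)) = c at hpc hcm ⊢
  generalize ε * ((k : ℝ) + 1) = τ at hτ hp hh hpb hpc hbe hce ⊢
  by_cases hm : b + c ≤ m
  · apply KJ_ge e _ τ hm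
    intro l hl
    have hlm : l < m := by omega
    by_cases h1 : l < b
    · exact lt_of_le_of_lt (hmb l hlm) (hpb l h1).2
    · by_cases h2 : l < c
      · exact lt_of_le_of_lt (hmc l hlm) (hpc l h2).2
      · rcases b with _ | a
        · omega
        · obtain ⟨d, hd⟩ : ∃ d, l = a + d + 1 := ⟨l - a - 1, by omega⟩
          have h3 := (hpb a (by omega)).2
          have h4 := (hpc d (by omega)).2
          have h5 := hh a d (by omega)
          rw [hd, ← th_add m a d]
          nlinarith [h3, h4, h5]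
  · exfalso
    have hc1 : 0 < c := by omega
    rcases b with _ | a
    · omega
    · obtain ⟨d, hd⟩ : ∃ d, m = a + d + 1 := ⟨m - a - 1, by omega⟩
      have h3 := (hpb a (by omega)).2
      have h4 := (hpc d (by omega)).2
      have h5 := hp a d (by omega) (by omega) (by omega)
      have h6 : th m a + th m d ≤ 1 := th_pair (by omega)
      have h7 : (th m a + th m d) * τ ≤ 1 * τ := mul_le_mul_of_nonneg_right h6 hτ.le
      nlinarith [h3, h4, h5, h7]

theorem JJ_biUnion {ε : ℝ} {m : ℕ} {e : ℕ → Finset ι → ℝ} (hU : Ult K lev)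
    (hε : 0 < ε) (he : Fam lev ε m e) (k : ℕ)
    {T : Finset (Finset ι)} (hT : T ⊆ cls lev k) (hne : T.Nonempty)
    (hin : ∀ i ∈ T.biUnion id, ∀ j ∈ T.biUnion id, lev i j ≤ k + 1) :
    ∑ B ∈ T, JJ m e B (ε * ((k : ℝ) + 1)) ≤ JJ m e (T.biUnion id) (ε * ((k : ℝ) + 1)) := by
  induction T using Finset.induction_on with
  | empty => exact absurd hne (by simp)
  | insert B T' hBT ih =>
    rw [sum_insert hBT, biUnion_insert, id]
    rcases T'.eq_empty_or_nonempty with rfl | hne'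
    · simp
    · have hT' : T' ⊆ cls lev k := (subset_insert B T').trans hT
      have hBc : B ∈ cls lev k := hT (mem_insert_self B T')
      have hin' : ∀ i ∈ T'.biUnion id, ∀ j ∈ T'.biUnion id, lev i j ≤ k + 1 := by
        intro i hi j hj
        refine hin i ?_ j ?_
        · rw [biUnion_insert, mem_union]
          exact Or.inr hi
        · rw [biUnion_insert, mem_union]
          exact Or.inr hj
      have hB0 : B.Nonempty := cls_nonempty hU hBc
      have hC0 : (T'.biUnion id).Nonempty := by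
        obtain ⟨C, hC⟩ := hne'
        obtain ⟨i, hi⟩ := cls_nonempty hU (hT' hC)
        exact ⟨i, mem_biUnion.2 ⟨C, hC, hi⟩⟩
      have hlB : ∀ i ∈ B, ∀ j ∈ B, lev i j ≤ k + 1 := fun i hi j hj =>
        (cls_lev_le hU hBc hi hj).trans (Nat.le_succ k)
      have hcr : ∀ i ∈ B, ∀ j ∈ T'.biUnion id, k < lev i j := by
        intro i hi j hj
        obtain ⟨C, hC, hjC⟩ := mem_biUnion.1 hj
        refine cls_cross hU hBc (hT' hC) ?_ hi hjC
        rintro rfl
        exact hBT hC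
      have h1 := JJ_superadd hε he k hB0 hC0 hlB hin' hcr
      have h2 := ih hT' hne' hin'
      exact (Nat.add_le_add_left h2 _).trans h1

end BcrK
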