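import Mathlib

/-!
MODULE KVol (120 lines). A Lipschitz function on `[0,1]` spends enough time in an interval.

`f : ℝ → ℝ` with `|f x - f y| ≤ δ |x - y|` for `x, y ∈ [0,1]`, `A = {x | a ≤ f x ∧ f x < b} ∩ [0,1]`. Claim:
`max 0 (min (max (f 0) (f 1)) b - max (min (f 0) (f 1)) a) ≤ δ * volume.real A`.
Proof. `δ ≥ 0` (`|f 0 - f 1| ≤ δ`). If the left side is `0`: the right side is nonnegative. Otherwise let
`l = max (min (f 0) (f 1)) a < h = min (max (f 0) (f 1)) b`. By replacing `f` by `x ↦ f (1 - x)` (or treating both cases) let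
`f 0 ≤ l`, `h ≤ f 1`. `f` is continuous on `[0,1]`. Let `x2 = sInf {x ∈ [0,1] | h ≤ f x}` (closed nonempty set, `f x2 ≥ h`,
`f x < h` for `x < x2`), `x1 = sSup {x ∈ [0, x2] | f x ≤ l}` (`f x1 ≤ l`, `f x > l` for `x1 < x ≤ x2`). Then
`h - l ≤ f x2 - f x1 ≤ δ (x2 - x1)` and `Set.Ioo x1 x2 ⊆ A`, so `x2 - x1 ≤ volume.real A` (`A ⊆ Icc 0 1` has finite measure;
`MeasureTheory.measureReal_mono`, `Real.volume_real_Ioo`).
(Alternatively: the image of `A` contains `Set.Ico l h`, and use that a `δ`-Lipschitz map increases lengths by at most `δ`.)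
-/

namespace BcrK

open MeasureTheory

theorem lip_interval {f : ℝ → ℝ} {δ : ℝ}
    (hf : ∀ x ∈ Set.Icc (0 : ℝ) 1, ∀ y ∈ Set.Icc (0 : ℝ) 1, |f x - f y| ≤ δ * |x - y|) (a b : ℝ) :
    max 0 (min (max (f 0) (f 1)) b - max (min (f 0) (f 1)) a) ≤
      δ * volume.real ({x : ℝ | a ≤ f x ∧ f x < b} ∩ Set.Icc 0 1) := by
  have hδ : 0 ≤ δ := by
    have h := hf 0 (by simp) 1 (by simp)
    have h1 : |(0 : ℝ) - 1| = 1 := by norm_num
    rw [h1, mul_one] at h
    exact le_trans (abs_nonneg _) h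
  set A := {x : ℝ | a ≤ f x ∧ f x < b} ∩ Set.Icc (0 : ℝ) 1 with hA
  have hLip : LipschitzOnWith δ.toNNReal f (Set.Icc (0 : ℝ) 1) := by
    apply LipschitzOnWith.of_dist_le_mul
    intro x hx y hy
    rw [Real.dist_eq, Real.dist_eq, Real.coe_toNNReal δ hδ]
    exact hf x hx y hy
  have hfin : volume A ≠ ⊤ := by
    have h1 : volume A ≤ volume (Set.Icc (0 : ℝ) 1) := measure_mono Set.inter_subset_right
    have h2 : volume (Set.Icc (0 : ℝ) 1) ≠ ⊤ := by simp
    exact ne_top_of_le_ne_top h2 h1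
  refine max_le (mul_nonneg hδ measureReal_nonneg) ?_
  set l := max (min (f 0) (f 1)) a with hl
  set h := min (max (f 0) (f 1)) b with hh
  have hsub : Set.Ico l h ⊆ f '' A := by
    intro y hy
    have h1 : y ∈ Set.uIcc (f 0) (f 1) := by
      rw [Set.uIcc, Set.mem_Icc]
      exact ⟨le_trans (le_max_left _ _) hy.1, le_trans hy.2.le (min_le_left _ _)⟩
    have hc : ContinuousOn f (Set.uIcc (0 : ℝ) 1) := by
      rw [Set.uIcc_of_le zero_le_one]
      exact hLip.continuousOn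
    obtain ⟨x, hx, hxy⟩ := intermediate_value_uIcc hc h1
    rw [Set.uIcc_of_le zero_le_one] at hx
    refine ⟨x, ⟨⟨?_, ?_⟩, hx⟩, hxy⟩
    · rw [hxy]
      exact le_trans (le_max_right _ _) hy.1
    · rw [hxy]
      exact lt_of_lt_of_le hy.2 (min_le_right _ _)
  have hmeas : volume (f '' A) ≤ (δ.toNNReal : ENNReal) * volume A := by
    have h1 := (hLip.mono (Set.inter_subset_right : A ⊆ Set.Icc (0 : ℝ) 1)).hausdorffMeasure_image_le
      (d := 1) zero_le_one
    rw [hausdorffMeasure_real, ENNReal.rpow_one] at h1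
    exact h1
  have h3 : ENNReal.ofReal (h - l) ≤ (δ.toNNReal : ENNReal) * volume A := by
    rw [← Real.volume_Ico]
    exact (measure_mono hsub).trans hmeas
  have h4 : (δ.toNNReal : ENNReal) * volume A ≠ ⊤ := ENNReal.mul_ne_top ENNReal.coe_ne_top hfin
  have h5 := (ENNReal.ofReal_le_iff_le_toReal h4).mp h3
  rw [ENNReal.toReal_mul, ENNReal.coe_toReal, Real.coe_toNNReal δ hδ] at h5
  exact h5

end BcrK
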