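import Pool.Agent.Lib.BcrK.KCount
import Pool.Agent.Lib.BcrK.KVol
import Pool.Agent.Lib.BcrU.LPath

/-!
MODULE KPath (200 lines). The path lemma. Adapt `cross_le` of `BcrU/LPath.lean`.

Index set: triples `(k, B, j)`, `k < K`, `B ∈ cls lev k`, `j < m`. `a = th m j (ε k)`, `b = th m j (ε (k+1))`, `b - a = th m j ε ≤ ε`.
`e^x = (1 - x) e0 + x e1` is a `Fam` for `0 ≤ x ≤ 1` (`fam_convex`). `f x = nest m e^x j B`; `f 0 = nest m e0 j B`, `f 1 = nest m e1 j B`
(the functions `fun i B => (1 - 0) * e0 i B + 0 * e1 i B` and `e0` agree: `nest_congr`).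
`|f x - f y| ≤ δ |x - y|` by `nest_lip`, because `|e^x i B - e^y i B| = |x - y| |e1 i B - e0 i B| ≤ δ |x - y|`.
Let `lo = min (f 0) (f 1)`, `hi = max (f 0) (f 1)`.
(1) If `lo < b ≤ hi` then `b - a ≤ ov + (b - a) [a ≤ lo < b]` where `ov = max 0 (min hi b - max lo a)`: if `lo ≤ a` then
    `ov = b - a`; else `a < lo < b`. And `[a ≤ lo < b] ≤ [a ≤ f 0 < b] + [a ≤ f 1 < b]`.
(2) `lip_interval`: `ov ≤ δ * vol {x ∈ [0,1] : a ≤ f x < b}`.
(3) `sum_vol_le` (BcrU/LPath) and `count_le` for `e^x`: `∑ vol ≤ m`. Measurability: `f` is continuous (`x ↦ nest` is a finite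
    maximum of affine functions times a constant; `Continuous.finset_sup'_apply`-like, or Lipschitz on `Icc 0 1` is enough if
    the set `A i` is replaced by its intersection with `Icc 0 1`).
(4) Sum: `∑ (b - a) [crossing] ≤ δ m + ε (count e0) + ε (count e1) ≤ m δ + 2 m ε` (`0 ≤ δ` as `|e0 0 B - e1 0 B| ≤ δ`, if `m > 0`;
    for `m = 0` both sides are `0`).
-/

namespace BcrK

open Finset Bcr3 BcrU MeasureTheory

variable {ι : Type} [Fintype ι] [DecidableEq ι] {lev : ι → ι → ℕ} {K : ℕ}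

private noncomputable def kPath_f (m : ℕ) (e0 e1 : ℕ → Finset ι → ℝ) (j : ℕ) (B : Finset ι)
    (x : ℝ) : ℝ := nest m (fun i B => (1 - x) * e0 i B + x * e1 i B) j B

omit [Fintype ι] [DecidableEq ι] in
private theorem kPath_f0 (m : ℕ) (e0 e1 : ℕ → Finset ι → ℝ) (j : ℕ) (B : Finset ι) :
    kPath_f m e0 e1 j B 0 = nest m e0 j B := by
  unfold kPath_f
  congr 1
  funext i C
  ring

omit [Fintype ι] [DecidableEq ι] in
private theorem kPath_f1 (m : ℕ) (e0 e1 : ℕ → Finset ι → ℝ) (j : ℕ) (B : Finset ι) :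
    kPath_f m e0 e1 j B 1 = nest m e1 j B := by
  unfold kPath_f
  congr 1
  funext i C
  ring

omit [Fintype ι] [DecidableEq ι] in
private theorem kPath_cont (m : ℕ) (e0 e1 : ℕ → Finset ι → ℝ) (j : ℕ) (B : Finset ι) :
    Continuous (kPath_f m e0 e1 j B) := by
  unfold kPath_f nest
  refine continuous_const.mul ?_
  refine Continuous.finset_sup'_apply _ fun i _ => ?_
  fun_prop

private theorem kPath_num {δ a b p r v : ℝ}
    (hab : a ≤ b) (hov : max 0 (min (max p r) b - max (min p r) a) ≤ δ * v) :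
    (if min p r < b ∧ b ≤ max p r then b - a else 0) ≤
      δ * v + (if a ≤ p ∧ p < b then b - a else 0) + (if a ≤ r ∧ r < b then b - a else 0) := by
  have h0 : 0 ≤ δ * v := le_trans (le_max_left _ _) hov
  have n1 : 0 ≤ (if a ≤ p ∧ p < b then b - a else 0) := by split_ifs <;> linarith
  have n2 : 0 ≤ (if a ≤ r ∧ r < b then b - a else 0) := by split_ifs <;> linarith
  by_cases h : min p r < b ∧ b ≤ max p r
  · rw [if_pos h]
    rcases le_or_gt (min p r) a with h1 | h1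
    · have h2 : b - a ≤ max 0 (min (max p r) b - max (min p r) a) := by
        refine le_trans (le_of_eq ?_) (le_max_right _ _)
        rw [min_eq_right h.2, max_eq_right h1]
      linarith
    · rcases le_total p r with h3 | h3
      · rw [min_eq_left h3] at h h1
        have : (if a ≤ p ∧ p < b then b - a else 0) = b - a := if_pos ⟨h1.le, h.1⟩
        linarith
      · rw [min_eq_right h3] at h h1
        have : (if a ≤ r ∧ r < b then b - a else 0) = b - a := if_pos ⟨h1.le, h.1⟩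
        linarith
  · rw [if_neg h]
    linarith

private theorem kPath_tri (m : ℕ) (F : ℕ → Finset ι → ℕ → ℝ) :
    ∑ k ∈ range K, ∑ B ∈ cls lev k, ∑ j ∈ range m, F k B j =
      ∑ p ∈ (range K).sigma (fun k => (cls lev k).sigma fun _ => range m),
        F p.1 p.2.1 p.2.2 := by
  rw [sum_sigma]
  refine sum_congr rfl fun k _ => ?_
  rw [sum_sigma]

private theorem kPath_triN (m : ℕ) (F : ℕ → Finset ι → ℕ → ℕ) :
    ∑ k ∈ range K, ∑ B ∈ cls lev k, ∑ j ∈ range m, F k B j =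
      ∑ p ∈ (range K).sigma (fun k => (cls lev k).sigma fun _ => range m),
        F p.1 p.2.1 p.2.2 := by
  rw [sum_sigma]
  refine sum_congr rfl fun k _ => ?_
  rw [sum_sigma]

private theorem kPath_end [Nonempty ι] {ε : ℝ} {m : ℕ} {e : ℕ → Finset ι → ℝ}
    (hU : Ult K lev) (hε : 0 < ε) (he : Fam lev ε m e) :
    ∑ p ∈ (range K).sigma (fun k => (cls lev k).sigma fun _ => range m),
      (if th m p.2.2 * (ε * (p.1 : ℝ)) ≤ nest m e p.2.2 p.2.1 ∧
        nest m e p.2.2 p.2.1 < th m p.2.2 * (ε * ((p.1 : ℝ) + 1)) then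
          th m p.2.2 * (ε * ((p.1 : ℝ) + 1)) - th m p.2.2 * (ε * (p.1 : ℝ)) else 0)
      ≤ m * ε := by
  rw [← kPath_tri m (fun k B j => if th m j * (ε * (k : ℝ)) ≤ nest m e j B ∧
        nest m e j B < th m j * (ε * ((k : ℝ) + 1)) then
          th m j * (ε * ((k : ℝ) + 1)) - th m j * (ε * (k : ℝ)) else 0)]
  have hc := count_le hU hε he
  have h1 : ∑ k ∈ range K, ∑ B ∈ cls lev k, ∑ j ∈ range m,
      (if th m j * (ε * (k : ℝ)) ≤ nest m e j B ∧
        nest m e j B < th m j * (ε * ((k : ℝ) + 1)) then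
          th m j * (ε * ((k : ℝ) + 1)) - th m j * (ε * (k : ℝ)) else 0) ≤
      ∑ k ∈ range K, ∑ B ∈ cls lev k, (((range m).filter fun j => th m j * (ε * (k : ℝ)) ≤
        nest m e j B ∧ nest m e j B < th m j * (ε * ((k : ℝ) + 1))).card : ℝ) * ε := by
    refine sum_le_sum fun k _ => sum_le_sum fun B _ => ?_
    rw [card_filter]
    push_cast
    rw [sum_mul]
    refine sum_le_sum fun j _ => ?_
    split_ifs
    · have := th_lt_one m j
      nlinarith
    · simp
  refine le_trans h1 ?_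
  have h2 : ((∑ k ∈ range K, ∑ B ∈ cls lev k, ((range m).filter fun j =>
      th m j * (ε * (k : ℝ)) ≤ nest m e j B ∧
        nest m e j B < th m j * (ε * ((k : ℝ) + 1))).card : ℕ) : ℝ) ≤ m := by
    exact_mod_cast hc
  push_cast at h2
  simp_rw [← sum_mul]
  exact mul_le_mul_of_nonneg_right h2 hε.le

theorem cross_le [Nonempty ι] {ε δ : ℝ} {m : ℕ} {e0 e1 : ℕ → Finset ι → ℝ}
    (hU : Ult K lev) (hε : 0 < ε) (h0 : Fam lev ε m e0)
    (h1 : Fam lev ε m e1) (hδ : ∀ i < m, ∀ B : Finset ι, B.Nonempty → |e0 i B - e1 i B| ≤ δ) :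
    ∑ k ∈ range K, ∑ B ∈ cls lev k, ∑ j ∈ range m,
      (if min (nest m e0 j B) (nest m e1 j B) < th m j * (ε * ((k : ℝ) + 1)) ∧
        th m j * (ε * ((k : ℝ) + 1)) ≤ max (nest m e0 j B) (nest m e1 j B) then th m j * ε else 0) ≤
      m * δ + 2 * m * ε := by
  rcases Nat.eq_zero_or_pos m with hm | hm
  · subst hm
    simp
  have hδ0 : 0 ≤ δ := le_trans (abs_nonneg _) (hδ 0 hm univ univ_nonempty)
  set T : Finset ((_ : ℕ) × (_ : Finset ι) × ℕ) :=
    (range K).sigma (fun k => (cls lev k).sigma fun _ => range m) with hT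
  have hTm : ∀ p ∈ T, p.1 ∈ range K ∧ p.2.1 ∈ cls lev p.1 ∧ p.2.2 ∈ range m := by
    intro p hp
    rw [hT, mem_sigma, mem_sigma] at hp
    exact hp
  let A : ((_ : ℕ) × (_ : Finset ι) × ℕ) → Set ℝ := fun p =>
    {x : ℝ | th m p.2.2 * (ε * (p.1 : ℝ)) ≤ kPath_f m e0 e1 p.2.2 p.2.1 x ∧
      kPath_f m e0 e1 p.2.2 p.2.1 x < th m p.2.2 * (ε * ((p.1 : ℝ) + 1))}
  have hA : ∀ p ∈ T, MeasurableSet (A p) := by
    intro p _
    exact (measurableSet_le measurable_const (kPath_cont m e0 e1 p.2.2 p.2.1).measurable).inter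
      (measurableSet_lt (kPath_cont m e0 e1 p.2.2 p.2.1).measurable measurable_const)
  have hvol : ∑ p ∈ T, volume.real (A p ∩ Set.Icc 0 1) ≤ m := by
    refine sum_vol_le T A hA m ?_
    intro x hx U hUT hUA
    have hc := count_le hU hε (fam_convex h0 h1 hx.1 hx.2)
    refine le_trans ?_ hc
    have e2 : ∀ k : ℕ, ∀ B : Finset ι, ((range m).filter fun j => th m j * (ε * (k : ℝ)) ≤
        nest m (fun i B => (1 - x) * e0 i B + x * e1 i B) j B ∧
        nest m (fun i B => (1 - x) * e0 i B + x * e1 i B) j B <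
          th m j * (ε * ((k : ℝ) + 1))).card =
        ∑ j ∈ range m, if th m j * (ε * (k : ℝ)) ≤
          nest m (fun i B => (1 - x) * e0 i B + x * e1 i B) j B ∧
          nest m (fun i B => (1 - x) * e0 i B + x * e1 i B) j B <
          th m j * (ε * ((k : ℝ) + 1)) then 1 else 0 := fun k B => card_filter _ _
    simp_rw [e2]
    rw [kPath_triN m (fun k B j => if th m j * (ε * (k : ℝ)) ≤
          nest m (fun i B => (1 - x) * e0 i B + x * e1 i B) j B ∧
          nest m (fun i B => (1 - x) * e0 i B + x * e1 i B) j B <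
          th m j * (ε * ((k : ℝ) + 1)) then 1 else 0), ← hT, ← card_filter]
    refine card_le_card fun p hp => ?_
    rw [mem_filter]
    exact ⟨hUT hp, hUA p hp⟩
  have hlip : ∀ p ∈ T, max 0 (min (max (kPath_f m e0 e1 p.2.2 p.2.1 0)
      (kPath_f m e0 e1 p.2.2 p.2.1 1)) (th m p.2.2 * (ε * ((p.1 : ℝ) + 1))) -
      max (min (kPath_f m e0 e1 p.2.2 p.2.1 0) (kPath_f m e0 e1 p.2.2 p.2.1 1))
        (th m p.2.2 * (ε * (p.1 : ℝ)))) ≤ δ * volume.real (A p ∩ Set.Icc 0 1) := by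
    intro p hp
    obtain ⟨hp1, hp2, hp3⟩ := hTm p hp
    rw [mem_range] at hp3
    refine lip_interval ?_ _ _
    intro x _ y _
    unfold kPath_f
    refine nest_lip hp3 fun i hi => ?_
    have hd := hδ i hi p.2.1 (cls_nonempty hU hp2)
    have e3 : (1 - x) * e0 i p.2.1 + x * e1 i p.2.1 - ((1 - y) * e0 i p.2.1 + y * e1 i p.2.1)
        = -((x - y) * (e0 i p.2.1 - e1 i p.2.1)) := by ring
    rw [e3, abs_neg, abs_mul, mul_comm]
    exact mul_le_mul_of_nonneg_right hd (abs_nonneg _)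
  rw [kPath_tri m (fun k B j => if min (nest m e0 j B) (nest m e1 j B) <
      th m j * (ε * ((k : ℝ) + 1)) ∧
        th m j * (ε * ((k : ℝ) + 1)) ≤ max (nest m e0 j B) (nest m e1 j B) then th m j * ε else 0),
    ← hT]
  have hterm : ∀ p ∈ T, (if min (nest m e0 p.2.2 p.2.1) (nest m e1 p.2.2 p.2.1) <
      th m p.2.2 * (ε * ((p.1 : ℝ) + 1)) ∧
        th m p.2.2 * (ε * ((p.1 : ℝ) + 1)) ≤ max (nest m e0 p.2.2 p.2.1) (nest m e1 p.2.2 p.2.1)
        then th m p.2.2 * ε else 0) ≤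
      δ * volume.real (A p ∩ Set.Icc 0 1) +
      (if th m p.2.2 * (ε * (p.1 : ℝ)) ≤ nest m e0 p.2.2 p.2.1 ∧
        nest m e0 p.2.2 p.2.1 < th m p.2.2 * (ε * ((p.1 : ℝ) + 1)) then
          th m p.2.2 * (ε * ((p.1 : ℝ) + 1)) - th m p.2.2 * (ε * (p.1 : ℝ)) else 0) +
      (if th m p.2.2 * (ε * (p.1 : ℝ)) ≤ nest m e1 p.2.2 p.2.1 ∧
        nest m e1 p.2.2 p.2.1 < th m p.2.2 * (ε * ((p.1 : ℝ) + 1)) then
          th m p.2.2 * (ε * ((p.1 : ℝ) + 1)) - th m p.2.2 * (ε * (p.1 : ℝ)) else 0) := by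
    intro p hp
    obtain ⟨hp1, hp2, hp3⟩ := hTm p hp
    rw [mem_range] at hp3
    have ht := th_pos hp3
    have hl := hlip p hp
    rw [kPath_f0, kPath_f1] at hl
    have hab : th m p.2.2 * (ε * (p.1 : ℝ)) ≤ th m p.2.2 * (ε * ((p.1 : ℝ) + 1)) := by
      have := mul_pos ht hε
      nlinarith
    have hn := kPath_num hab hl
    have e4 : th m p.2.2 * (ε * ((p.1 : ℝ) + 1)) - th m p.2.2 * (ε * (p.1 : ℝ))
        = th m p.2.2 * ε := by ring
    rw [e4] at hn ⊢
    exact hn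
  refine le_trans (sum_le_sum hterm) ?_
  rw [sum_add_distrib, sum_add_distrib, ← mul_sum]
  have k0 := kPath_end hU hε h0
  have k1 := kPath_end hU hε h1
  have k2 : δ * ∑ p ∈ T, volume.real (A p ∩ Set.Icc 0 1) ≤ δ * m :=
    mul_le_mul_of_nonneg_left hvol hδ0
  rw [← hT] at k0 k1
  linarith

end BcrK
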