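import Pool.Agent.Lib.BcrK.KUp
import Pool.Agent.Lib.BcrK.KPath
import Pool.Agent.Lib.BcrU.NLip

/-!
MODULE KLip. The credit density is Lipschitz.

`F = m + 2 q > 0`, `P_j = PP lev K ε (th m j) (nest m e0 j)`, `Q_j = PP lev K ε (th m j) (nest m e1 j)`,
`X_j = |P_j \ Q_j| + |Q_j \ P_j|`; the proof is that of `BcrU/NLip.lean`.
-/

namespace BcrK

open Finset Bcr3 BcrU

variable {ι : Type} [Fintype ι] [DecidableEq ι] {lev : ι → ι → ℕ} {K : ℕ}

private theorem KLip_point {ε : ℝ} {m q : ℕ} {e0 e1 : ℕ → Finset ι → ℝ}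
    (hqm : q ≤ m) (p : ℕ × Finset ι) :
    max 0 (dens lev K ε m q e0 p - dens lev K ε m q e1 p) ≤
      3 / ((m : ℝ) + 2 * q) * ∑ j ∈ range q, th m j *
        max 0 (nu (par lev) Prod.fst (PP lev K ε (th m j) (nest m e0 j)) p -
          nu (par lev) Prod.fst (PP lev K ε (th m j) (nest m e1 j)) p) +
      1 / ((m : ℝ) + 2 * q) * ∑ j ∈ Ico q m, th m j *
        max 0 ((if p ∈ PP lev K ε (th m j) (nest m e0 j) then (1 : ℝ) else 0) -
          (if p ∈ PP lev K ε (th m j) (nest m e1 j) then (1 : ℝ) else 0)) := by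
  have hF3 : 0 ≤ 3 / ((m : ℝ) + 2 * q) := by positivity
  have hF1 : 0 ≤ 1 / ((m : ℝ) + 2 * q) := by positivity
  refine max_le ?_ ?_
  · refine add_nonneg (mul_nonneg hF3 (sum_nonneg fun j hj => ?_))
      (mul_nonneg hF1 (sum_nonneg fun j hj => ?_))
    · exact mul_nonneg (th_pos (lt_of_lt_of_le (mem_range.1 hj) hqm)).le (le_max_left _ _)
    · exact mul_nonneg (th_pos (mem_Ico.1 hj).2).le (le_max_left _ _)
  · have e : dens lev K ε m q e0 p - dens lev K ε m q e1 p =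
      3 / ((m : ℝ) + 2 * q) * ∑ j ∈ range q, th m j *
        (nu (par lev) Prod.fst (PP lev K ε (th m j) (nest m e0 j)) p -
          nu (par lev) Prod.fst (PP lev K ε (th m j) (nest m e1 j)) p) +
      1 / ((m : ℝ) + 2 * q) * ∑ j ∈ Ico q m, th m j *
        ((if p ∈ PP lev K ε (th m j) (nest m e0 j) then (1 : ℝ) else 0) -
          (if p ∈ PP lev K ε (th m j) (nest m e1 j) then (1 : ℝ) else 0)) := by
      unfold dens
      simp only [mul_sub, sum_sub_distrib]
      ring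
    rw [e]
    refine add_le_add (mul_le_mul_of_nonneg_left (sum_le_sum fun j hj => ?_) hF3)
      (mul_le_mul_of_nonneg_left (sum_le_sum fun j hj => ?_) hF1)
    · exact mul_le_mul_of_nonneg_left (le_max_right _ _)
        (th_pos (lt_of_lt_of_le (mem_range.1 hj) hqm)).le
    · exact mul_le_mul_of_nonneg_left (le_max_right _ _) (th_pos (mem_Ico.1 hj).2).le

omit [Fintype ι] in
private theorem KLip_ind {P Q N : Finset (ℕ × Finset ι)} (hP : P ⊆ N) :
    ∑ p ∈ N, max 0 ((if p ∈ P then (1 : ℝ) else 0) - (if p ∈ Q then (1 : ℝ) else 0)) ≤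
      ((P \ Q).card : ℝ) + ((Q \ P).card : ℝ) := by
  have e : ∀ p ∈ N, max 0 ((if p ∈ P then (1 : ℝ) else 0) - (if p ∈ Q then (1 : ℝ) else 0)) =
      if p ∈ P \ Q then (1 : ℝ) else 0 := by
    intro p _
    by_cases h1 : p ∈ P <;> by_cases h2 : p ∈ Q <;> simp [h1, h2]
  rw [sum_congr rfl e, ← sum_filter, sum_const, nsmul_eq_mul, mul_one]
  have e2 : N.filter (fun p => p ∈ P \ Q) = P \ Q := by
    ext p
    simp only [mem_filter, mem_sdiff]
    constructor
    · rintro ⟨_, h⟩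
      exact h
    · rintro ⟨h1, h2⟩
      exact ⟨hP h1, h1, h2⟩
  rw [e2]
  have : (0 : ℝ) ≤ ((Q \ P).card : ℝ) := Nat.cast_nonneg _
  linarith

private theorem KLip_cost {ε δ θ : ℝ} {e0 e1 : Finset ι → ℝ} (hU : Ult K lev) (hε : 0 < ε)
    (hθ : 0 < θ) (hθ1 : θ < 1) (h0 : ∀ B C : Finset ι, B.Nonempty → B ⊆ C → e0 C ≤ e0 B)
    (h1 : ∀ B C : Finset ι, B.Nonempty → B ⊆ C → e1 C ≤ e1 B) (hδ0 : 0 ≤ δ)
    (hδ : ∀ B : Finset ι, B.Nonempty → |e0 B - e1 B| ≤ δ) :
    ε * (3 * (θ * ∑ p ∈ nodes lev K, max 0 (nu (par lev) Prod.fst (PP lev K ε θ e0) p -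
      nu (par lev) Prod.fst (PP lev K ε θ e1) p))) ≤
      2 * (δ + ε) + θ * ε * (((PP lev K ε θ e0 \ PP lev K ε θ e1).card : ℝ) +
        ((PP lev K ε θ e1 \ PP lev K ε θ e0).card : ℝ)) := by
  have hpos : 0 < θ * ε := mul_pos hθ hε
  set h : ℕ := ⌈δ / (θ * ε)⌉₊ with hh
  have a1 : δ ≤ θ * ε * h := by
    have := Nat.le_ceil (δ / (θ * ε))
    rw [div_le_iff₀ hpos] at this
    rw [mul_comm]
    exact this
  have a2 : θ * ε * h ≤ δ + ε := by
    have h3 := (Nat.ceil_lt_add_one (div_nonneg hδ0 hpos.le)).le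
    have h4 : θ * ε * h ≤ θ * ε * (δ / (θ * ε) + 1) := mul_le_mul_of_nonneg_left h3 hpos.le
    have h5 : θ * ε * (δ / (θ * ε) + 1) = δ + θ * ε := by
      field_simp
    have h6 : θ * ε ≤ ε := by nlinarith
    linarith
  have hc := forest_cost (par := par lev) (rk := Prod.fst) (K := K)
    (fun x => par_fst x) (PP_up hU hε hθ h0) (PP_up hU hε hθ h1) (nodes lev K)
    (PP_sub ε θ e0) (PP_sub ε θ e1) h (PP_trim hU hε hθ h1 hδ a1)
  have h7 := mul_le_mul_of_nonneg_left hc (mul_nonneg (by norm_num : (0 : ℝ) ≤ 3) hpos.le)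
  nlinarith [h7, a2]

theorem dens_lip [Nonempty ι] {ε δ : ℝ} {m q : ℕ} {e0 e1 : ℕ → Finset ι → ℝ}
    (hU : Ult K lev) (hε : 0 < ε) (hm : 0 < m) (hq : q ≤ m) (h0 : Fam lev ε m e0)
    (h1 : Fam lev ε m e1) (hδ0 : 0 ≤ δ)
    (hδ : ∀ i < m, ∀ B : Finset ι, B.Nonempty → |e0 i B - e1 i B| ≤ δ) :
    ε * ∑ p ∈ nodes lev K, max 0 (dens lev K ε m q e0 p - dens lev K ε m q e1 p) ≤
      δ + 2 * ε := by
  have hm' : (0 : ℝ) < m := by exact_mod_cast hm
  have hqm : q ≤ m := hq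
  have hqm' : (q : ℝ) ≤ m := by exact_mod_cast hqm
  have hq0 : (0 : ℝ) ≤ q := Nat.cast_nonneg _
  have hF : (0 : ℝ) < (m : ℝ) + 2 * q := by positivity
  have hn0 : ∀ j < m, ∀ B C : Finset ι, B.Nonempty → B ⊆ C → nest m e0 j C ≤ nest m e0 j B :=
    fun j hj B C hB hBC => nest_mono hj fun i hi => h0.mono i hi B C hB hBC
  have hn1 : ∀ j < m, ∀ B C : Finset ι, B.Nonempty → B ⊆ C → nest m e1 j C ≤ nest m e1 j B :=
    fun j hj B C hB hBC => nest_mono hj fun i hi => h1.mono i hi B C hB hBC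
  have hnδ : ∀ j < m, ∀ B : Finset ι, B.Nonempty → |nest m e0 j B - nest m e1 j B| ≤ δ :=
    fun j hj B hB => nest_lip hj fun i hi => hδ i hi B hB
  set X : ℕ → ℝ := fun j =>
    ((PP lev K ε (th m j) (nest m e0 j) \ PP lev K ε (th m j) (nest m e1 j)).card : ℝ) +
    ((PP lev K ε (th m j) (nest m e1 j) \ PP lev K ε (th m j) (nest m e0 j)).card : ℝ) with hX
  set T : ℕ → ℝ := fun j => ∑ p ∈ nodes lev K,
    max 0 (nu (par lev) Prod.fst (PP lev K ε (th m j) (nest m e0 j)) p -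
      nu (par lev) Prod.fst (PP lev K ε (th m j) (nest m e1 j)) p) with hT
  set V : ℕ → ℝ := fun j => ∑ p ∈ nodes lev K,
    max 0 ((if p ∈ PP lev K ε (th m j) (nest m e0 j) then (1 : ℝ) else 0) -
      (if p ∈ PP lev K ε (th m j) (nest m e1 j) then (1 : ℝ) else 0)) with hV
  -- the pointwise bound, summed
  have s1 : ∑ p ∈ nodes lev K, max 0 (dens lev K ε m q e0 p - dens lev K ε m q e1 p) ≤
      3 / ((m : ℝ) + 2 * q) * ∑ j ∈ range q, th m j * T j +
      1 / ((m : ℝ) + 2 * q) * ∑ j ∈ Ico q m, th m j * V j := by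
    refine (sum_le_sum fun p _ => KLip_point (ε := ε) hqm p).trans ?_
    rw [sum_add_distrib, ← mul_sum, ← mul_sum, sum_comm, sum_comm (s := nodes lev K)
      (t := Ico q m)]
    refine le_of_eq ?_
    congr 2
    · exact sum_congr rfl fun j _ => (mul_sum _ _ _).symm
    · exact sum_congr rfl fun j _ => (mul_sum _ _ _).symm
  -- the crossings
  have s2 : ∑ j ∈ range m, th m j * ε * X j ≤ m * δ + 2 * m * ε := by
    have hc := cross_le hU hε h0 h1 hδ
    have e : ∑ j ∈ range m, th m j * ε * X j = ∑ k ∈ range K, ∑ B ∈ cls lev k, ∑ j ∈ range m,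
      (if min (nest m e0 j B) (nest m e1 j B) < th m j * (ε * ((k : ℝ) + 1)) ∧
        th m j * (ε * ((k : ℝ) + 1)) ≤ max (nest m e0 j B) (nest m e1 j B) then
          th m j * ε else 0) := by
      have e1' : ∀ k ∈ range K, ∑ B ∈ cls lev k, ∑ j ∈ range m,
          (if min (nest m e0 j B) (nest m e1 j B) < th m j * (ε * ((k : ℝ) + 1)) ∧
            th m j * (ε * ((k : ℝ) + 1)) ≤ max (nest m e0 j B) (nest m e1 j B) then
              th m j * ε else 0) =
          ∑ j ∈ range m, ∑ B ∈ cls lev k,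
          (if min (nest m e0 j B) (nest m e1 j B) < th m j * (ε * ((k : ℝ) + 1)) ∧
            th m j * (ε * ((k : ℝ) + 1)) ≤ max (nest m e0 j B) (nest m e1 j B) then
              th m j * ε else 0) :=
        fun k _ => sum_comm
      rw [sum_congr rfl e1', sum_comm]
      refine sum_congr rfl fun j _ => ?_
      rw [hX]
      simp only
      rw [PP_card, mul_sum]
      refine sum_congr rfl fun k _ => ?_
      rw [mul_sum]
      refine sum_congr rfl fun B _ => ?_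
      split_ifs <;> simp
    rw [e]
    exact hc
  -- the two parts
  have s3 : ∀ j ∈ range q, ε * (3 * (th m j * T j)) ≤ 2 * (δ + ε) + th m j * ε * X j := by
    intro j hj
    have hjm : j < m := lt_of_lt_of_le (mem_range.1 hj) hqm
    exact KLip_cost hU hε (th_pos hjm) (th_lt_one m j) (hn0 j hjm) (hn1 j hjm) hδ0 (hnδ j hjm)
  have s4 : ∀ j ∈ Ico q m, ε * (th m j * V j) ≤ th m j * ε * X j := by
    intro j hj
    have hjm : j < m := (mem_Ico.1 hj).2
    have := KLip_ind (P := PP lev K ε (th m j) (nest m e0 j))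
      (Q := PP lev K ε (th m j) (nest m e1 j)) (PP_sub ε (th m j) (nest m e0 j))
    have h5 := mul_le_mul_of_nonneg_left this (mul_nonneg (th_pos hjm).le hε.le)
    calc ε * (th m j * V j) = th m j * ε * V j := by ring
      _ ≤ th m j * ε * X j := h5
  have s5 : ∑ j ∈ range m, th m j * ε * X j =
      ∑ j ∈ range q, th m j * ε * X j + ∑ j ∈ Ico q m, th m j * ε * X j :=
    (sum_range_add_sum_Ico _ hqm).symm
  have s6 : ε * (3 * ∑ j ∈ range q, th m j * T j) ≤
      q * (2 * (δ + ε)) + ∑ j ∈ range q, th m j * ε * X j := by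
    have := sum_le_sum s3
    rw [sum_add_distrib, sum_const, card_range, nsmul_eq_mul, ← mul_sum, ← mul_sum] at this
    exact this
  have s7 : ε * ∑ j ∈ Ico q m, th m j * V j ≤ ∑ j ∈ Ico q m, th m j * ε * X j := by
    have := sum_le_sum s4
    rw [← mul_sum] at this
    exact this
  have s8 : ε * (3 / ((m : ℝ) + 2 * q) * ∑ j ∈ range q, th m j * T j +
      1 / ((m : ℝ) + 2 * q) * ∑ j ∈ Ico q m, th m j * V j) =
      (ε * (3 * ∑ j ∈ range q, th m j * T j) + ε * ∑ j ∈ Ico q m, th m j * V j) /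
        ((m : ℝ) + 2 * q) := by
    field_simp
  calc ε * ∑ p ∈ nodes lev K, max 0 (dens lev K ε m q e0 p - dens lev K ε m q e1 p)
      ≤ ε * (3 / ((m : ℝ) + 2 * q) * ∑ j ∈ range q, th m j * T j +
      1 / ((m : ℝ) + 2 * q) * ∑ j ∈ Ico q m, th m j * V j) := mul_le_mul_of_nonneg_left s1 hε.le
    _ = (ε * (3 * ∑ j ∈ range q, th m j * T j) + ε * ∑ j ∈ Ico q m, th m j * V j) /
        ((m : ℝ) + 2 * q) := s8
    _ ≤ δ + 2 * ε := by
        rw [div_le_iff₀ hF]
        nlinarith [s2, s5, s6, s7, mul_nonneg hq0 hε.le]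

theorem dens_congr {ε : ℝ} {m q : ℕ} {e0 e1 : ℕ → Finset ι → ℝ} (hU : Ult K lev) (hq : q ≤ m)
    (h : ∀ i < m, ∀ B : Finset ι, B.Nonempty → e0 i B = e1 i B) {p : ℕ × Finset ι}
    (hp : p ∈ nodes lev K) : dens lev K ε m q e0 p = dens lev K ε m q e1 p := by
  have hP : ∀ j < m, ∀ t : ℝ, PP lev K ε t (nest m e0 j) = PP lev K ε t (nest m e1 j) := by
    intro j hj t
    unfold PP
    refine filter_congr fun x hx => ?_
    rw [nest_congr hj fun i hi => h i hi x.2 (cls_nonempty hU (mem_nodes.1 hx).2)]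
  have a1 : ∀ j ∈ range q, th m j * nu (par lev) Prod.fst (PP lev K ε (th m j) (nest m e0 j)) p =
      th m j * nu (par lev) Prod.fst (PP lev K ε (th m j) (nest m e1 j)) p := by
    intro j hj
    rw [hP j (lt_of_lt_of_le (mem_range.1 hj) hq)]
  have a2 : ∀ j ∈ Ico q m,
      th m j * (if p ∈ PP lev K ε (th m j) (nest m e0 j) then (1 : ℝ) else 0) =
      th m j * (if p ∈ PP lev K ε (th m j) (nest m e1 j) then (1 : ℝ) else 0) := by
    intro j hj
    rw [hP j (mem_Ico.1 hj).2]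
  unfold dens
  rw [sum_congr rfl a1, sum_congr rfl a2]

end BcrK
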