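import Pool.Agent.Lib.BcrK.KDefs

/-!
MODULE KNest (180 lines). The thresholds `th m j = 1 - (j+1)/(m+1)` and the nested vectors
`nest m e j B = th m j * max_{i ≤ j} (e i B / th m i)`.

* `th_pos`: `j < m` gives `(j+1)/(m+1) < 1`. `th_lt_one`. `th_anti`. `th_add`: an identity (`m + 1 > 0`). `th_pair`: if `m ≤ i + j + 1`
  then `th i + th j = 2 - (i+j+2)/(m+1) ≤ 1`.
* `nest_lt_iff`: divide by `th m j > 0`: `nest < th m j * τ ↔ sup' < τ ↔ ∀ i ≤ j, e i B / th m i < τ` (`Finset.sup'_lt_iff`, `div_lt_iff₀`).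
* `nest_ge`: `e i B / th m i ≤ sup'` (`Finset.le_sup'`), for `i = j` multiply by `th m j`.
* `nest_mono`: each `e i` is antitone. `nest_lip`: `|e0 i B - e1 i B| ≤ δ` and `0 < th m j ≤ th m i` for `i ≤ j`, so
  `e0 i B / th m i ≤ e1 i B / th m i + δ / th m i ≤ sup'(e1) + δ / th m j`; multiply by `th m j`; symmetric.
* `nest_zero`: all quotients are `0` (`Finset.sup'_const`-like; `le_antisymm`).
* `fam_convex`: all conditions are linear.
-/

namespace BcrK

open Finset Bcr3 BcrU

variable {ι : Type} [Fintype ι] [DecidableEq ι] {lev : ι → ι → ℕ} {K : ℕ}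

theorem th_pos {m j : ℕ} (h : j < m) : 0 < th m j := by
  have h1 : ((j : ℝ) + 1) / ((m : ℝ) + 1) < 1 := by
    rw [div_lt_one (by positivity)]
    have : (j : ℝ) < (m : ℝ) := by exact_mod_cast h
    linarith
  unfold th
  linarith

theorem th_lt_one (m j : ℕ) : th m j < 1 := by
  have h1 : 0 < ((j : ℝ) + 1) / ((m : ℝ) + 1) := by positivity
  unfold th
  linarith

theorem th_anti (m : ℕ) {i j : ℕ} (h : i ≤ j) : th m j ≤ th m i := by
  have h1 : ((i : ℝ) + 1) / ((m : ℝ) + 1) ≤ ((j : ℝ) + 1) / ((m : ℝ) + 1) := by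
    have : (i : ℝ) ≤ (j : ℝ) := by exact_mod_cast h
    gcongr
  unfold th
  linarith

theorem th_add (m i j : ℕ) : th m i + th m j - 1 = th m (i + j + 1) := by
  unfold th
  push_cast
  field_simp
  ring

theorem th_pair {m i j : ℕ} (h : m ≤ i + j + 1) : th m i + th m j ≤ 1 := by
  have h1 : th m i + th m j - 1 = th m (i + j + 1) := th_add m i j
  have h2 : th m (i + j + 1) ≤ 0 := by
    unfold th
    have : 1 ≤ (((i + j + 1 : ℕ) : ℝ) + 1) / ((m : ℝ) + 1) := by
      rw [one_le_div (by positivity)]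
      have : (m : ℝ) ≤ ((i + j + 1 : ℕ) : ℝ) := by exact_mod_cast h
      linarith
    linarith
  linarith

private theorem KNest_div {m j i : ℕ} (hj : j < m) (hi : i ≤ j) (e : ℕ → Finset ι → ℝ)
    (B : Finset ι) :
    e i B / th m i ≤
      (range (j + 1)).sup' nonempty_range_add_one (fun i => e i B / th m i) := by
  have hi' : i ∈ range (j + 1) := Finset.mem_range.2 (by omega)
  exact Finset.le_sup' (fun i => e i B / th m i) hi'

theorem nest_lt_iff {m : ℕ} (e : ℕ → Finset ι → ℝ) {j : ℕ} (hj : j < m) (B : Finset ι) (τ : ℝ) :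
    nest m e j B < th m j * τ ↔ ∀ i ≤ j, e i B < th m i * τ := by
  have hp := th_pos hj
  unfold nest
  constructor
  · intro h i hi
    have h1 := lt_of_mul_lt_mul_left h hp.le
    have h2 := lt_of_le_of_lt (KNest_div hj hi e B) h1
    have h3 : 0 < th m i := th_pos (lt_of_le_of_lt hi hj)
    rw [div_lt_iff₀ h3] at h2
    linarith
  · intro h
    refine mul_lt_mul_of_pos_left ?_ hp
    rw [Finset.sup'_lt_iff]
    intro i hi
    have hi' : i ≤ j := by
      have := Finset.mem_range.1 hi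
      omega
    have h3 : 0 < th m i := th_pos (lt_of_le_of_lt hi' hj)
    rw [div_lt_iff₀ h3]
    have := h i hi'
    linarith

theorem nest_ge {m : ℕ} (e : ℕ → Finset ι → ℝ) {j : ℕ} (hj : j < m) (B : Finset ι) :
    e j B ≤ nest m e j B := by
  have hp := th_pos hj
  have h1 := mul_le_mul_of_nonneg_left (KNest_div hj le_rfl e B) hp.le
  have h2 : th m j * (e j B / th m j) = e j B := by field_simp
  rw [h2] at h1
  exact h1

private theorem KNest_aux {m : ℕ} {e0 e1 : ℕ → Finset ι → ℝ} {j : ℕ} (hj : j < m)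
    {B C : Finset ι} {δ : ℝ} (hδ : 0 ≤ δ) (h : ∀ i < m, e0 i C ≤ e1 i B + δ) :
    nest m e0 j C ≤ nest m e1 j B + δ := by
  have hp := th_pos hj
  have h1 : (range (j + 1)).sup' nonempty_range_add_one (fun i => e0 i C / th m i) ≤
      (range (j + 1)).sup' nonempty_range_add_one (fun i => e1 i B / th m i) + δ / th m j := by
    refine Finset.sup'_le _ _ ?_
    intro i hi
    have hi' : i ≤ j := by
      have := Finset.mem_range.1 hi
      omega
    have him : i < m := lt_of_le_of_lt hi' hj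
    have h3 : 0 < th m i := th_pos him
    have h4 : e0 i C / th m i ≤ (e1 i B + δ) / th m i :=
      div_le_div_of_nonneg_right (h i him) h3.le
    have h5 : (e1 i B + δ) / th m i = e1 i B / th m i + δ / th m i := add_div _ _ _
    have h6 : δ / th m i ≤ δ / th m j := div_le_div_of_nonneg_left hδ hp (th_anti m hi')
    have h7 := KNest_div hj hi' e1 B
    linarith
  have h2 := mul_le_mul_of_nonneg_left h1 hp.le
  have h3 : th m j * ((range (j + 1)).sup' nonempty_range_add_one (fun i => e1 i B / th m i) +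
      δ / th m j) = nest m e1 j B + δ := by
    unfold nest
    field_simp
  rw [h3] at h2
  exact h2

theorem nest_mono {m : ℕ} {e : ℕ → Finset ι → ℝ} {j : ℕ} (hj : j < m) {B C : Finset ι}
    (h : ∀ i < m, e i C ≤ e i B) : nest m e j C ≤ nest m e j B := by
  have := KNest_aux (e0 := e) (e1 := e) hj (B := B) (C := C) le_rfl
    (fun i hi => by rw [add_zero]; exact h i hi)
  rwa [add_zero] at this

theorem nest_lip {m : ℕ} {e0 e1 : ℕ → Finset ι → ℝ} {j : ℕ} (hj : j < m) {B : Finset ι} {δ : ℝ}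
    (h : ∀ i < m, |e0 i B - e1 i B| ≤ δ) : |nest m e0 j B - nest m e1 j B| ≤ δ := by
  have hδ : 0 ≤ δ := (abs_nonneg _).trans (h j hj)
  have h1 := KNest_aux (e0 := e0) (e1 := e1) hj (B := B) (C := B) hδ (fun i hi => by
    have := (abs_le.1 (h i hi)).2
    linarith)
  have h2 := KNest_aux (e0 := e1) (e1 := e0) hj (B := B) (C := B) hδ (fun i hi => by
    have := (abs_le.1 (h i hi)).1
    linarith)
  rw [abs_le]
  constructor <;> linarith

theorem nest_congr {m : ℕ} {e0 e1 : ℕ → Finset ι → ℝ} {j : ℕ} (hj : j < m) {B : Finset ι}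
    (h : ∀ i < m, e0 i B = e1 i B) : nest m e0 j B = nest m e1 j B := by
  have := nest_lip hj (δ := 0) (B := B) (e0 := e0) (e1 := e1) (fun i hi => by
    rw [h i hi, sub_self, abs_zero])
  have h2 := abs_nonpos_iff.1 this
  linarith

theorem nest_zero {m : ℕ} {e : ℕ → Finset ι → ℝ} {j : ℕ} (hj : j < m) {B : Finset ι}
    (h : ∀ i < m, e i B = 0) : nest m e j B = 0 := by
  rw [nest_congr hj (e0 := e) (e1 := fun _ _ => 0) h]
  unfold nest
  simp

theorem fam_convex {ε : ℝ} {m : ℕ} {e0 e1 : ℕ → Finset ι → ℝ} (h0 : Fam lev ε m e0)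
    (h1 : Fam lev ε m e1) {x : ℝ} (hx0 : 0 ≤ x) (hx1 : x ≤ 1) :
    Fam lev ε m fun i B => (1 - x) * e0 i B + x * e1 i B := by
  have hx1' : 0 ≤ 1 - x := sub_nonneg.2 hx1
  refine ⟨?_, ?_, ?_, ?_⟩
  · intro i hi B hB
    exact add_nonneg (mul_nonneg hx1' (h0.nn i hi B hB)) (mul_nonneg hx0 (h1.nn i hi B hB))
  · intro i hi B C hB hBC
    exact add_le_add (mul_le_mul_of_nonneg_left (h0.mono i hi B C hB hBC) hx1')
      (mul_le_mul_of_nonneg_left (h1.mono i hi B C hB hBC) hx0)
  · intro i j hi hj hij k B C hB hC a1 a2 a3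
    have b0 := mul_le_mul_of_nonneg_left (h0.pair i j hi hj hij k B C hB hC a1 a2 a3) hx1'
    have b1 := mul_le_mul_of_nonneg_left (h1.pair i j hi hj hij k B C hB hC a1 a2 a3) hx0
    show ε * ((k : ℝ) + 1) ≤ (1 - x) * e0 i B + x * e1 i B + ((1 - x) * e0 j C + x * e1 j C)
    linarith
  · intro i j hij k B C hB hC a1 a2 a3
    have b0 := mul_le_mul_of_nonneg_left (h0.hub i j hij k B C hB hC a1 a2 a3) hx1'
    have b1 := mul_le_mul_of_nonneg_left (h1.hub i j hij k B C hB hC a1 a2 a3) hx0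
    show (1 - x) * e0 (i + j + 1) (B ∪ C) + x * e1 (i + j + 1) (B ∪ C) ≤
      (1 - x) * e0 i B + x * e1 i B + ((1 - x) * e0 j C + x * e1 j C) - ε * ((k : ℝ) + 1)
    linarith

end BcrK
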