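import Pool.Agent.Lib.BcrK.KDefs
import Pool.Agent.Lib.BcrU.LUlt

/-!
MODULE KTight (220 lines). The information from few terminals at a vertex `v`.

* `TT_le`: `csInf_le` (bounded below by `0` as `c ≥ 0`).
* `TT_exists`: the set of values is finite (`Finset (Sym2 V)` is finite) and nonempty (`Y = univ`: a walk exists and all its edges are in
  `univ`); a finite nonempty set has its infimum as a member (`Set.Finite` , `Set.Nonempty.csInf_mem`).
* `eK_le`, `eK_exists`: finitely many sets `S` (`Finset.univ.powerset`), so the set of values is finite; nonempty: `S = {b}`, `b ∈ B`.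
* `eK_fam`. Let `eK v i B = ec c Y - mu S` with `S ⊆ B`, `Y` connecting `v` with all terminals of `S` (so `Y` connects all pairs of
  `S`: append and reverse walks).
  `nn`: `ht` for `S, Y`. `mono`: `eK_exists` for `B`, `eK_le` for `C`.
  `pair`: `S₁ ⊆ B`, `Y₁`, `S₂ ⊆ C`, `Y₂`: `Y₁ ∪ Y₂` connects `S₁ ∪ S₂` (through `v`), `card ≤ i + 1 + j + 1 ≤ m + 1`, so
  `mu S₁ + mu S₂ + ε (k+1) ≤ mu (S₁ ∪ S₂) ≤ ec (Y₁ ∪ Y₂) ≤ ec Y₁ + ec Y₂` (`mu_union`, LUlt).
  `hub`: `eK (i+j+1) (B ∪ C) ≤ TT (S₁ ∪ S₂) v - mu (S₁ ∪ S₂) ≤ ec Y₁ + ec Y₂ - mu S₁ - mu S₂ - ε (k+1)`.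
* `eK_lip`: `Y ∪ {s(u,v)}` connects `u` with the terminals of `S` if `Y` connects `v` with them (`Walk.cons`); both directions.
* `eK_zero`: `0 ≤` by `eK_fam.nn`, `≤` by `S = {a}`, `Y = ∅`, `mu_singleton`.
-/

namespace BcrK

open Finset Bcr3 BcrU

variable {V : Type} [Fintype V] [DecidableEq V] {G : SimpleGraph V} {c : Sym2 V → ℝ} {ι : Type}
  [Fintype ι] [DecidableEq ι] {t : ι → V} {K : ℕ} {ε : ℝ} {lev : ι → ι → ℕ}

private theorem KTight_symm {Y : Finset (Sym2 V)} {u v : V} (h : conn G Y u v) :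
    conn G Y v u := by
  obtain ⟨w, hw⟩ := h
  refine ⟨w.reverse, fun e he => hw e ?_⟩
  rwa [SimpleGraph.Walk.edges_reverse, List.mem_reverse] at he

private theorem KTight_trans {Y : Finset (Sym2 V)} {u v w : V} (h1 : conn G Y u v)
    (h2 : conn G Y v w) : conn G Y u w := by
  obtain ⟨p, hp⟩ := h1
  obtain ⟨q, hq⟩ := h2
  refine ⟨p.append q, fun e he => ?_⟩
  rw [SimpleGraph.Walk.edges_append, List.mem_append] at he
  exact he.elim (hp e) (hq e)

private theorem KTight_mono {Y Z : Finset (Sym2 V)} (hYZ : Y ⊆ Z) {u v : V} (h : conn G Y u v) :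
    conn G Z u v := by
  obtain ⟨w, hw⟩ := h
  exact ⟨w, fun e he => hYZ (hw e he)⟩

private theorem KTight_ecu (hc : ∀ e, 0 ≤ c e) (Y Z : Finset (Sym2 V)) :
    ec c (Y ∪ Z) ≤ ec c Y + ec c Z := by
  have h := Finset.sum_union_inter (s₁ := Y) (s₂ := Z) (f := c)
  have h2 : 0 ≤ ∑ e ∈ Y ∩ Z, c e := Finset.sum_nonneg fun e _ => hc e
  unfold ec
  linarith

theorem TT_le (hc : ∀ e, 0 ≤ c e) {S : Finset ι} {v : V} {Y : Finset (Sym2 V)}
    (h : ∀ i ∈ S, conn G Y v (t i)) : TT G c t S v ≤ ec c Y := by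
  unfold TT
  refine csInf_le ⟨0, ?_⟩ ⟨Y, h, rfl⟩
  rintro x ⟨Z, _, rfl⟩
  exact Finset.sum_nonneg fun e _ => hc e

theorem TT_exists {S : Finset ι} {v : V} (h : ∀ i ∈ S, G.Reachable v (t i)) :
    ∃ Y : Finset (Sym2 V), (∀ i ∈ S, conn G Y v (t i)) ∧ TT G c t S v = ec c Y := by
  have h1 : {x | ∃ Y : Finset (Sym2 V), (∀ i ∈ S, conn G Y v (t i)) ∧ x = ec c Y}.Nonempty := by
    refine ⟨_, univ, fun i hi => ?_, rfl⟩
    obtain ⟨w⟩ := h i hi
    exact ⟨w, fun e _ => mem_univ e⟩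
  have h2 : {x | ∃ Y : Finset (Sym2 V), (∀ i ∈ S, conn G Y v (t i)) ∧ x = ec c Y}.Finite := by
    refine (Set.finite_range (fun Y : Finset (Sym2 V) => ec c Y)).subset ?_
    rintro x ⟨Y, _, rfl⟩
    exact ⟨Y, rfl⟩
  obtain ⟨Y, hY, hx⟩ := h1.csInf_mem h2
  exact ⟨Y, hY, hx⟩

private theorem KTight_fin (B : Finset ι) (i : ℕ) (v : V) :
    {x | ∃ S : Finset ι, S.Nonempty ∧ S ⊆ B ∧ S.card ≤ i + 1 ∧
      x = TT G c t S v - mu lev K ε S}.Finite := by
  refine (Set.finite_range (fun S : Finset ι => TT G c t S v - mu lev K ε S)).subset ?_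
  rintro x ⟨S, _, _, _, rfl⟩
  exact ⟨S, rfl⟩

theorem eK_le {S B : Finset ι} {i : ℕ} (v : V) (h1 : S.Nonempty) (h2 : S ⊆ B)
    (h3 : S.card ≤ i + 1) :
    eK G c t lev K ε v i B ≤ TT G c t S v - mu lev K ε S := by
  unfold eK
  exact csInf_le (KTight_fin B i v).bddBelow ⟨S, h1, h2, h3, rfl⟩

theorem eK_exists {B : Finset ι} (hB : B.Nonempty) (i : ℕ) (v : V) :
    ∃ S : Finset ι, S.Nonempty ∧ S ⊆ B ∧ S.card ≤ i + 1 ∧
      eK G c t lev K ε v i B = TT G c t S v - mu lev K ε S := by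
  obtain ⟨b, hb⟩ := hB
  have h1 : {x | ∃ S : Finset ι, S.Nonempty ∧ S ⊆ B ∧ S.card ≤ i + 1 ∧
      x = TT G c t S v - mu lev K ε S}.Nonempty := by
    refine ⟨_, {b}, singleton_nonempty b, singleton_subset_iff.2 hb, ?_, rfl⟩
    rw [card_singleton]
    omega
  obtain ⟨S, a1, a2, a3, a4⟩ := h1.csInf_mem (KTight_fin B i v)
  exact ⟨S, a1, a2, a3, a4⟩

/-- data of a minimiser -/
private theorem KTight_data {v : V} (hv : ∀ i, G.Reachable v (t i)) {B : Finset ι}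
    (hB : B.Nonempty) (i : ℕ) :
    ∃ (S : Finset ι) (Y : Finset (Sym2 V)), S.Nonempty ∧ S ⊆ B ∧ S.card ≤ i + 1 ∧
      (∀ a ∈ S, conn G Y v (t a)) ∧ eK G c t lev K ε v i B = ec c Y - mu lev K ε S := by
  obtain ⟨S, a1, a2, a3, a4⟩ := eK_exists (G := G) (c := c) (t := t) (lev := lev) (K := K)
    (ε := ε) hB i v
  obtain ⟨Y, b1, b2⟩ := TT_exists (G := G) (c := c) (t := t) (S := S) (v := v) fun i _ => hv i
  exact ⟨S, Y, a1, a2, a3, b1, by rw [a4, b2]⟩

private theorem KTight_two (hc : ∀ e, 0 ≤ c e) {v : V} {S₁ S₂ : Finset ι}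
    {Y₁ Y₂ : Finset (Sym2 V)} (h₁ : ∀ a ∈ S₁, conn G Y₁ v (t a))
    (h₂ : ∀ a ∈ S₂, conn G Y₂ v (t a)) :
    (∀ a ∈ S₁ ∪ S₂, conn G (Y₁ ∪ Y₂) v (t a)) ∧ ec c (Y₁ ∪ Y₂) ≤ ec c Y₁ + ec c Y₂ := by
  refine ⟨fun a ha => ?_, KTight_ecu hc _ _⟩
  rcases mem_union.1 ha with h | h
  · exact KTight_mono subset_union_left (h₁ a h)
  · exact KTight_mono subset_union_right (h₂ a h)

theorem eK_fam (hc : ∀ e, 0 ≤ c e) (hU : Ult K lev) (hε : 0 ≤ ε) {m : ℕ} {v : V}
    (hv : ∀ i, G.Reachable v (t i))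
    (ht : ∀ S : Finset ι, S.Nonempty → S.card ≤ m + 1 → ∀ Y : Finset (Sym2 V),
      (∀ i ∈ S, ∀ j ∈ S, conn G Y (t i) (t j)) → mu lev K ε S ≤ ec c Y) :
    Fam lev ε m (eK G c t lev K ε v) where
  nn := by
    intro i hi B hB
    obtain ⟨S, Y, a1, a2, a3, a4, a5⟩ := KTight_data (c := c) (lev := lev) (K := K) (ε := ε)
      hv hB i
    have h := ht S a1 (by omega) Y fun i hi j hj =>
      KTight_trans (KTight_symm (a4 i hi)) (a4 j hj)
    rw [a5]
    linarith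
  mono := by
    intro i _ B C hB hBC
    obtain ⟨S, a1, a2, a3, a4⟩ := eK_exists (G := G) (c := c) (t := t) (lev := lev) (K := K)
      (ε := ε) hB i v
    rw [a4]
    exact eK_le v a1 (a2.trans hBC) a3
  pair := by
    intro i j hi hj hij k B C hB hC hlB hlC hlBC
    obtain ⟨S₁, Y₁, a1, a2, a3, a4, a5⟩ := KTight_data (c := c) (lev := lev) (K := K) (ε := ε)
      hv hB i
    obtain ⟨S₂, Y₂, b1, b2, b3, b4, b5⟩ := KTight_data (c := c) (lev := lev) (K := K) (ε := ε)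
      hv hC j
    obtain ⟨d1, d2⟩ := KTight_two hc a4 b4
    have h1 := ht (S₁ ∪ S₂) (a1.mono subset_union_left)
      ((card_union_le _ _).trans (by omega)) (Y₁ ∪ Y₂) fun i hi j hj =>
      KTight_trans (KTight_symm (d1 i hi)) (d1 j hj)
    have h2 := mu_union hU hε a1 b1 (fun x hx y hy => hlB x (a2 hx) y (a2 hy))
      (fun x hx y hy => hlC x (b2 hx) y (b2 hy)) (fun x hx y hy => hlBC x (a2 hx) y (b2 hy))
    rw [a5, b5]
    linarith
  hub := by
    intro i j hij k B C hB hC hlB hlC hlBC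
    obtain ⟨S₁, Y₁, a1, a2, a3, a4, a5⟩ := KTight_data (c := c) (lev := lev) (K := K) (ε := ε)
      hv hB i
    obtain ⟨S₂, Y₂, b1, b2, b3, b4, b5⟩ := KTight_data (c := c) (lev := lev) (K := K) (ε := ε)
      hv hC j
    obtain ⟨d1, d2⟩ := KTight_two hc a4 b4
    have h2 := mu_union hU hε a1 b1 (fun x hx y hy => hlB x (a2 hx) y (a2 hy))
      (fun x hx y hy => hlC x (b2 hx) y (b2 hy)) (fun x hx y hy => hlBC x (a2 hx) y (b2 hy))
    have h3 := eK_le (G := G) (c := c) (t := t) (lev := lev) (K := K) (ε := ε) (S := S₁ ∪ S₂)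
      (B := B ∪ C) (i := i + j + 1) v (a1.mono subset_union_left) (union_subset_union a2 b2)
      ((card_union_le _ _).trans (by omega))
    have h4 := TT_le (t := t) hc d1
    rw [a5, b5]
    linarith

private theorem KTight_lip (hc : ∀ e, 0 ≤ c e) {u v : V} (hv : ∀ i, G.Reachable v (t i))
    (h : G.Adj u v) (i : ℕ) {B : Finset ι} (hB : B.Nonempty) :
    eK G c t lev K ε u i B ≤ eK G c t lev K ε v i B + c s(u, v) := by
  obtain ⟨S, Y, a1, a2, a3, a4, a5⟩ := KTight_data (c := c) (lev := lev) (K := K) (ε := ε)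
    hv hB i
  have h1 := eK_le (G := G) (c := c) (t := t) (lev := lev) (K := K) (ε := ε) u a1 a2 a3
  have hw : conn G ({s(u, v)} : Finset (Sym2 V)) u v := by
    refine ⟨SimpleGraph.Walk.cons h SimpleGraph.Walk.nil, fun e he => ?_⟩
    rw [SimpleGraph.Walk.edges_cons, SimpleGraph.Walk.edges_nil, List.mem_singleton] at he
    rw [he]
    exact mem_singleton_self _
  have h2 : TT G c t S u ≤ ec c (Y ∪ {s(u, v)}) := TT_le hc fun a ha =>
    KTight_trans (KTight_mono subset_union_right hw) (KTight_mono subset_union_left (a4 a ha))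
  have h3 := KTight_ecu hc Y ({s(u, v)} : Finset (Sym2 V))
  have h4 : ec c ({s(u, v)} : Finset (Sym2 V)) = c s(u, v) := by
    unfold ec
    rw [sum_singleton]
  linarith

theorem eK_lip (hc : ∀ e, 0 ≤ c e) {u v : V} (hv : ∀ i, G.Reachable v (t i)) (h : G.Adj u v)
    (i : ℕ) {B : Finset ι} (hB : B.Nonempty) :
    |eK G c t lev K ε u i B - eK G c t lev K ε v i B| ≤ c s(u, v) := by
  have h1 := KTight_lip (lev := lev) (K := K) (ε := ε) hc hv h i hB
  have h2 := KTight_lip (lev := lev) (K := K) (ε := ε) (t := t) hc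
    (fun i => h.reachable.trans (hv i)) h.symm i hB
  rw [Sym2.eq_swap] at h2
  rw [abs_le]
  constructor <;> linarith

theorem eK_zero (hc : ∀ e, 0 ≤ c e) (hU : Ult K lev) (hε : 0 ≤ ε) {m : ℕ} {a : ι}
    (hv : ∀ i, G.Reachable (t a) (t i))
    (ht : ∀ S : Finset ι, S.Nonempty → S.card ≤ m + 1 → ∀ Y : Finset (Sym2 V),
      (∀ i ∈ S, ∀ j ∈ S, conn G Y (t i) (t j)) → mu lev K ε S ≤ ec c Y) {i : ℕ} (hi : i < m)
    {B : Finset ι} (ha : a ∈ B) : eK G c t lev K ε (t a) i B = 0 := by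
  apply le_antisymm
  · have h1 := eK_le (G := G) (c := c) (t := t) (lev := lev) (K := K) (ε := ε) (S := {a})
      (B := B) (i := i) (t a) (singleton_nonempty a) (singleton_subset_iff.2 ha)
      (by rw [card_singleton]; omega)
    have h2 : TT G c t {a} (t a) ≤ ec c (∅ : Finset (Sym2 V)) := by
      refine TT_le hc fun j hj => ?_
      rw [mem_singleton.1 hj]
      refine ⟨SimpleGraph.Walk.nil, fun e he => ?_⟩
      rw [SimpleGraph.Walk.edges_nil] at he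
      exact absurd he (List.not_mem_nil)
    have h3 : ec c (∅ : Finset (Sym2 V)) = 0 := by
      unfold ec
      exact sum_empty
    rw [mu_singleton hU] at h1
    linarith
  · exact (eK_fam hc hU hε hv ht).nn i hi B ⟨a, ha⟩

end BcrK
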