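import Pool.Agent.Lib.BcrK.KNest
import Pool.Agent.Lib.BcrU.NUp

/-!
MODULE KUp (90 lines). The present nodes form an up-closed subset of the merge forest, for every antitone vector. The proofs are
those of `PP_up` and `PP_trim` in `BcrU/NUp.lean`, which use only the monotonicity of the vectors.
-/

namespace BcrK

open Finset Bcr3 BcrU

variable {ι : Type} [Fintype ι] [DecidableEq ι] {lev : ι → ι → ℕ} {K : ℕ}

private theorem KUp_mem {ε θ : ℝ} {e : Finset ι → ℝ} {p : ℕ × Finset ι} :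
    p ∈ PP lev K ε θ e ↔ (p.1 < K ∧ p.2 ∈ cls lev p.1) ∧ e p.2 < θ * (ε * ((p.1 : ℝ) + 1)) := by
  unfold PP
  rw [Finset.mem_filter, mem_nodes]

theorem PP_up {ε θ : ℝ} {e : Finset ι → ℝ} (hU : Ult K lev) (hε : 0 < ε) (hθ : 0 < θ)
    (he : ∀ B C : Finset ι, B.Nonempty → B ⊆ C → e C ≤ e B) :
    Up (par lev) Prod.fst K (PP lev K ε θ e) := by
  constructor
  · intro x hx
    exact (KUp_mem.1 hx).1.1
  · intro x hx hK
    obtain ⟨⟨h1, h2⟩, h3⟩ := KUp_mem.1 hx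
    have h4 := par_cls hU h2
    have h5 : ((x.1, x.2) : ℕ × Finset ι) = x := rfl
    rw [h5] at h4
    rw [KUp_mem, par_fst]
    refine ⟨⟨hK, h4.1⟩, ?_⟩
    have h6 : e (par lev x).2 ≤ e x.2 := he _ _ (cls_nonempty hU h2) h4.2
    have h7 : θ * (ε * ((x.1 : ℝ) + 1)) ≤ θ * (ε * (((x.1 + 1 : ℕ) : ℝ) + 1)) := by
      refine mul_le_mul_of_nonneg_left (mul_le_mul_of_nonneg_left ?_ hε.le) hθ.le
      push_cast
      linarith
    exact lt_of_le_of_lt h6 (lt_of_lt_of_le h3 h7)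

theorem PP_trim {ε θ δ : ℝ} {e0 e1 : Finset ι → ℝ} (hU : Ult K lev) (hε : 0 < ε) (hθ : 0 < θ)
    (he : ∀ B C : Finset ι, B.Nonempty → B ⊆ C → e1 C ≤ e1 B)
    (hδ : ∀ B : Finset ι, B.Nonempty → |e0 B - e1 B| ≤ δ) {h : ℕ} (hh : δ ≤ θ * ε * h) :
    trim (par lev) (PP lev K ε θ e0) h ⊆ PP lev K ε θ e1 := by
  intro p hp
  unfold trim at hp
  rw [Finset.mem_filter] at hp
  obtain ⟨hp, x, hx, rfl⟩ := hp
  obtain ⟨h2, -⟩ := KUp_mem.1 hp
  obtain ⟨⟨-, h4⟩, h5⟩ := KUp_mem.1 hx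
  obtain ⟨h6, -, h8⟩ := iter_par hU h h4
  rw [KUp_mem]
  refine ⟨h2, ?_⟩
  have h9 := he _ _ (cls_nonempty hU h4) h8
  have h10 := abs_le.1 (hδ x.2 (cls_nonempty hU h4))
  rw [h6]
  push_cast
  have h11 : θ * (ε * ((x.1 : ℝ) + h + 1)) = θ * (ε * ((x.1 : ℝ) + 1)) + θ * ε * h := by ring
  rw [h11]
  linarith [h10.1]

end BcrK
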